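import Pool.Agent.helper74.VQ.SpecA

/-!
Row `vq:VSH` (MP_07c750_an, project VQ): unfolding and the Schur test on quotients.
-/

set_option autoImplicit false

open scoped MatrixGroups ContDiff Topology UpperHalfPlane ComplexConjugate ENNReal
open UpperHalfPlane MeasureTheory Filter Set

namespace Pool.Agent.VQ

noncomputable section

/-- unfolding -/
theorem VSH_unf {Γ : Type} [Group Γ] [Countable Γ] {X : Type} [MeasurableSpace X] [MulAction Γ X] (μ : Measure X) (D : Set X)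
    (hμ : ∀ γ : Γ, MeasurePreserving (fun x : X => γ • x) μ μ) (hD : ∀ x : X, ∃! γ : Γ, γ • x ∈ D) (mD : MeasurableSet D)
    (f : X → ENNReal) (hf : Measurable f) : ∫⁻ x, f x ∂μ = ∑' γ : Γ, ∫⁻ x in D, f (γ⁻¹ • x) ∂μ := by
  have h1 : (⋃ γ : Γ, (fun x : X => γ • x) ⁻¹' D) = univ := by
    refine Set.eq_univ_of_forall fun x => ?_
    obtain ⟨γ, hγ, -⟩ := hD x
    exact Set.mem_iUnion.2 ⟨γ, hγ⟩
  have h2 : Pairwise (Function.onFun Disjoint fun γ : Γ => (fun x : X => γ • x) ⁻¹' D) := by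
    intro γ γ' hne
    refine Set.disjoint_left.2 fun x hx hx' => hne ?_
    exact (hD x).unique hx hx'
  rw [← setLIntegral_univ, ← h1, lintegral_iUnion (fun γ => (hμ γ).measurable mD) h2]
  refine tsum_congr fun γ => ?_
  refine Eq.trans ?_ ((hμ γ).setLIntegral_comp_preimage mD (hf.comp (hμ γ⁻¹).measurable))
  refine setLIntegral_congr_fun ((hμ γ).measurable mD) fun x _ => ?_
  show f x = f (γ⁻¹ • γ • x)
  rw [inv_smul_smul]

/-- the symmetry of the integral of an invariant kernel -/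
theorem VSH_swap {Γ : Type} [Group Γ] [Countable Γ] {X Y : Type} [MeasurableSpace X] [MeasurableSpace Y] [MulAction Γ X] [MulAction Γ Y] (μ : Measure X) (ν : Measure Y)
    [SigmaFinite μ] [SigmaFinite ν] (DX : Set X) (DY : Set Y)
    (hμ : ∀ γ : Γ, MeasurePreserving (fun x : X => γ • x) μ μ) (hν : ∀ γ : Γ, MeasurePreserving (fun y : Y => γ • y) ν ν)
    (hX : ∀ x : X, ∃! γ : Γ, γ • x ∈ DX) (hY : ∀ y : Y, ∃! γ : Γ, γ • y ∈ DY) (mX : MeasurableSet DX) (mY : MeasurableSet DY)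
    (K : X → Y → ENNReal) (hK : Measurable (Function.uncurry K)) (inv : ∀ (γ : Γ) x y, K (γ • x) (γ • y) = K x y) :
    ∫⁻ x in DX, ∫⁻ y, K x y ∂ν ∂μ = ∫⁻ y in DY, ∫⁻ x, K x y ∂μ ∂ν := by
  have hKx : ∀ x, Measurable fun y => K x y := fun x => hK.comp (measurable_const.prodMk measurable_id)
  have hKy : ∀ y, Measurable fun x => K x y := fun y => hK.comp (measurable_id.prodMk measurable_const)
  have hKγ : ∀ γ : Γ, Measurable (Function.uncurry fun (x : X) (y : Y) => K x (γ⁻¹ • y)) := fun γ =>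
    hK.comp (measurable_fst.prodMk ((hν γ⁻¹).measurable.comp measurable_snd))
  have hKγ' : ∀ γ : Γ, Measurable (Function.uncurry fun (y : Y) (x : X) => K x (γ⁻¹ • y)) := fun γ =>
    hK.comp (measurable_snd.prodMk ((hν γ⁻¹).measurable.comp measurable_fst))
  have h1 : ∫⁻ x in DX, ∫⁻ y, K x y ∂ν ∂μ = ∑' γ : Γ, ∫⁻ x in DX, ∫⁻ y in DY, K x (γ⁻¹ • y) ∂ν ∂μ := by
    rw [← lintegral_tsum]
    · refine lintegral_congr fun x => ?_
      exact VSH_unf ν DY hν hY mY _ (hKx x)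
    · intro γ
      exact ((hKγ γ).lintegral_prod_right' (ν := ν.restrict DY)).aemeasurable
  have h2 : ∫⁻ y in DY, ∫⁻ x, K x y ∂μ ∂ν = ∑' γ : Γ, ∫⁻ y in DY, ∫⁻ x in DX, K x (γ⁻¹ • y) ∂μ ∂ν := by
    rw [← lintegral_tsum]
    · refine lintegral_congr fun y => ?_
      rw [VSH_unf μ DX hμ hX mX _ (hKy y), ← (Equiv.inv Γ).tsum_eq]
      refine tsum_congr fun γ => ?_
      refine lintegral_congr fun x => ?_
      show K (γ⁻¹⁻¹ • x) y = K x (γ⁻¹ • y)
      rw [inv_inv, ← inv γ x (γ⁻¹ • y), smul_inv_smul]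
    · intro γ
      exact ((hKγ' γ).lintegral_prod_right' (ν := μ.restrict DX)).aemeasurable
  rw [h1, h2]
  refine tsum_congr fun γ => ?_
  exact lintegral_lintegral_swap (hKγ γ).aemeasurable

/-- Cauchy-Schwarz with a weight -/
theorem VSH_cs {Y : Type} [MeasurableSpace Y] (ν : Measure Y) (k v : Y → ENNReal) (hk : Measurable k) (hv : Measurable v) :
    (∫⁻ y, k y * v y ∂ν) ^ 2 ≤ (∫⁻ y, k y ∂ν) * ∫⁻ y, k y * v y ^ 2 ∂ν := by
  have h0 : (2 : ℝ).HolderConjugate 2 := Real.HolderConjugate.two_two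
  have h1 := ENNReal.lintegral_mul_le_Lp_mul_Lq ν h0 (f := fun y => k y ^ (1 / 2 : ℝ)) (g := fun y => k y ^ (1 / 2 : ℝ) * v y)
    (hk.pow_const _).aemeasurable ((hk.pow_const _).mul hv).aemeasurable
  have h2 : ∀ y, k y ^ (1 / 2 : ℝ) * (k y ^ (1 / 2 : ℝ) * v y) = k y * v y := by
    intro y
    rw [← mul_assoc, ← ENNReal.rpow_add_of_nonneg _ _ (by norm_num) (by norm_num)]
    norm_num
  have h3 : ∀ y, (k y ^ (1 / 2 : ℝ)) ^ (2 : ℝ) = k y := by
    intro y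
    rw [← ENNReal.rpow_mul]
    norm_num
  have h4 : ∀ y, (k y ^ (1 / 2 : ℝ) * v y) ^ (2 : ℝ) = k y * v y ^ 2 := by
    intro y
    rw [ENNReal.mul_rpow_of_nonneg _ _ (by norm_num), h3, ENNReal.rpow_two]
  simp only [Pi.mul_apply, h2, h3, h4] at h1
  calc (∫⁻ y, k y * v y ∂ν) ^ 2 ≤ ((∫⁻ y, k y ∂ν) ^ (1 / 2 : ℝ) * (∫⁻ y, k y * v y ^ 2 ∂ν) ^ (1 / 2 : ℝ)) ^ 2 := by
        gcongr
    _ = (∫⁻ y, k y ∂ν) * ∫⁻ y, k y * v y ^ 2 ∂ν := by
        rw [mul_pow, ← ENNReal.rpow_two, ← ENNReal.rpow_two, ← ENNReal.rpow_mul, ← ENNReal.rpow_mul]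
        norm_num

theorem VSH_proof : VSH_stmt := by
  intro Γ _ _ X Y _ _ _ _ μ ν _ _ DX DY hμ hν hX hY mX mY K hK inv
  refine ⟨VSH_swap μ ν DX DY hμ hν hX hY mX mY K hK inv, ?_⟩
  intro a b v hv vinv ha hb
  have hKx : ∀ x, Measurable fun y => K x y := fun x => hK.comp (measurable_const.prodMk measurable_id)
  have hKy : ∀ y, Measurable fun x => K x y := fun y => hK.comp (measurable_id.prodMk measurable_const)
  have hK' : Measurable (Function.uncurry fun (x : X) (y : Y) => K x y * v y ^ 2) :=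
    hK.mul ((hv.comp measurable_snd).pow_const 2)
  have h1 : ∀ x, (∫⁻ y, K x y * v y ∂ν) ^ 2 ≤ a * ∫⁻ y, K x y * v y ^ 2 ∂ν := fun x =>
    (VSH_cs ν _ v (hKx x) hv).trans (mul_le_mul_left (ha x) _)
  calc ∫⁻ x in DX, (∫⁻ y, K x y * v y ∂ν) ^ 2 ∂μ ≤ ∫⁻ x in DX, a * ∫⁻ y, K x y * v y ^ 2 ∂ν ∂μ := lintegral_mono fun x => h1 x
    _ = a * ∫⁻ x in DX, ∫⁻ y, K x y * v y ^ 2 ∂ν ∂μ := lintegral_const_mul _ hK'.lintegral_prod_right'
    _ = a * ∫⁻ y in DY, ∫⁻ x, K x y * v y ^ 2 ∂μ ∂ν := by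
        rw [VSH_swap μ ν DX DY hμ hν hX hY mX mY (fun x y => K x y * v y ^ 2) hK' (fun γ x y => by
          show K (γ • x) (γ • y) * v (γ • y) ^ 2 = K x y * v y ^ 2
          rw [inv, vinv])]
    _ ≤ a * ∫⁻ y in DY, b * v y ^ 2 ∂ν := by
        refine mul_le_mul_right (lintegral_mono fun y => ?_) a
        show ∫⁻ x, K x y * v y ^ 2 ∂μ ≤ b * v y ^ 2
        rw [lintegral_mul_const _ (hKy y)]
        exact mul_le_mul_left (hb y) _
    _ = a * b * ∫⁻ y in DY, v y ^ 2 ∂ν := by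
        rw [lintegral_const_mul _ (hv.pow_const 2), mul_assoc]

end

end Pool.Agent.VQ
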