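import Pool.Agent.helper73.VQ.VUBa

/-!
# Row `vq:VDN` (MP_07c750_an, project VQ): derivatives of the potential along curves
-/

set_option autoImplicit false

open scoped MatrixGroups ContDiff Topology UpperHalfPlane ComplexConjugate ENNReal
open UpperHalfPlane MeasureTheory Filter Set

namespace Pool.Agent.VQ

open Pool.Agent.RS

noncomputable section

/-! ## Derivatives along curves -/

/-- the derivative of the Möbius transformation -/
theorem VDN_N (p : (Fin 2 → Fin 2 → ℝ) × ℂ) (hp : ((p.1 1 0 : ℂ) * (Complex.I * (2 + p.2)) + (p.1 1 1 : ℂ) * (2 - p.2)) ≠ 0)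
    (δ : Fin 2 → Fin 2 → ℝ) (u : ℂ) :
    fderiv ℝ VUB_N p (δ, u) =
      (((δ 0 0 : ℂ) * (Complex.I * (2 + p.2)) + (p.1 0 0 : ℂ) * (Complex.I * u) + ((δ 0 1 : ℂ) * (2 - p.2) + (p.1 0 1 : ℂ) * (-u))) *
          ((p.1 1 0 : ℂ) * (Complex.I * (2 + p.2)) + (p.1 1 1 : ℂ) * (2 - p.2)) -
        ((p.1 0 0 : ℂ) * (Complex.I * (2 + p.2)) + (p.1 0 1 : ℂ) * (2 - p.2)) *
          ((δ 1 0 : ℂ) * (Complex.I * (2 + p.2)) + (p.1 1 0 : ℂ) * (Complex.I * u) + ((δ 1 1 : ℂ) * (2 - p.2) + (p.1 1 1 : ℂ) * (-u)))) /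
        ((p.1 1 0 : ℂ) * (Complex.I * (2 + p.2)) + (p.1 1 1 : ℂ) * (2 - p.2)) ^ 2 := by
  have h1 : HasFDerivAt VUB_N (fderiv ℝ VUB_N p) p := ((VUB_N_cd p hp).differentiableAt (by simp)).hasFDerivAt
  have hc : HasDerivAt (fun s : ℝ => p + s • ((δ, u) : (Fin 2 → Fin 2 → ℝ) × ℂ)) (δ, u) 0 := by
    have h2 := ((hasDerivAt_id (0 : ℝ)).smul_const ((δ, u) : (Fin 2 → Fin 2 → ℝ) × ℂ)).const_add p
    simpa using h2
  have h0 : p + (0 : ℝ) • ((δ, u) : (Fin 2 → Fin 2 → ℝ) × ℂ) = p := by rw [zero_smul, add_zero]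
  have h3 : HasDerivAt (fun s : ℝ => VUB_N (p + s • ((δ, u) : (Fin 2 → Fin 2 → ℝ) × ℂ))) (fderiv ℝ VUB_N p (δ, u)) 0 := by
    have h2 : HasFDerivAt VUB_N (fderiv ℝ VUB_N p) (p + (0 : ℝ) • ((δ, u) : (Fin 2 → Fin 2 → ℝ) × ℂ)) := by
      rw [h0]
      exact h1
    exact h2.comp_hasDerivAt (0 : ℝ) hc
  have he : ∀ i j : Fin 2, HasDerivAt (fun s : ℝ => (((p + s • ((δ, u) : (Fin 2 → Fin 2 → ℝ) × ℂ)).1 i j : ℝ) : ℂ)) (δ i j : ℂ) 0 := by
    intro i j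
    have h4 : HasDerivAt (fun s : ℝ => p.1 i j + s * δ i j) (δ i j) 0 := by
      have h5 := ((hasDerivAt_id (0 : ℝ)).mul_const (δ i j)).const_add (p.1 i j)
      simpa using h5
    exact h4.ofReal_comp
  have hv : HasDerivAt (fun s : ℝ => (p + s • ((δ, u) : (Fin 2 → Fin 2 → ℝ) × ℂ)).2) u 0 := by
    have h5 := ((hasDerivAt_id (0 : ℝ)).smul_const u).const_add p.2
    simpa using h5
  have hα : HasDerivAt (fun s : ℝ => Complex.I * (2 + (p + s • ((δ, u) : (Fin 2 → Fin 2 → ℝ) × ℂ)).2)) (Complex.I * u) 0 :=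
    (hv.const_add 2).const_mul Complex.I
  have hβ : HasDerivAt (fun s : ℝ => 2 - (p + s • ((δ, u) : (Fin 2 → Fin 2 → ℝ) × ℂ)).2) (-u) 0 := hv.const_sub 2
  have hA := ((he 0 0).mul hα).add ((he 0 1).mul hβ)
  have hD := ((he 1 0).mul hα).add ((he 1 1).mul hβ)
  have h6 := hA.div hD (by
    simp only [Pi.add_apply, Pi.mul_apply, h0]
    exact hp)
  simp only [Pi.add_apply, Pi.mul_apply, h0] at h6
  exact h3.unique h6

/-- the vector field of `[[x/2, b], [c, -x/2]]` in the disc coordinate -/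
def VDN_w (x b c : ℝ) (v : ℂ) : ℂ := (x : ℂ) * (1 - v ^ 2 / 4) + ((b - c : ℝ) : ℂ) * (Complex.I * v) - ((b + c : ℝ) : ℂ) * (Complex.I * (1 + v ^ 2 / 4))

/-- the matrix `g ω` -/
def VDN_d (g : SL(2, ℝ)) (x b c : ℝ) : Fin 2 → Fin 2 → ℝ := fun i j => (g.1 * !![x / 2, b; c, -(x / 2)]) i j

theorem VDN_inv (h1 : VCD_stmt) (U : ℍ → ℝ) (hU : QU.CD ∞ U) (g : SL(2, ℝ)) (v : ℂ) (hv : ‖v‖ < 2) (x b c : ℝ) :
    fderiv ℝ (VUB_P U) (VUB_e g, v) (VDN_d g x b c, 0) = fderiv ℝ (VUB_P U) (VUB_e g, v) (0, VDN_w x b c v) := by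
  obtain ⟨hD, hN⟩ := VUB_mob h1 g v hv
  have h2 : DifferentiableAt ℝ VUB_N (VUB_e g, v) := (VUB_N_cd (VUB_e g, v) hD).differentiableAt (by simp)
  have h3 : DifferentiableAt ℝ (QU.onC U) (VUB_N (VUB_e g, v)) := by
    rw [hN]
    have h4 : ContDiffAt ℝ ∞ (QU.onC U) ((g • cdi v : ℍ) : ℂ) :=
      hU.contDiffAt ((isOpen_lt continuous_const Complex.continuous_im).mem_nhds (g • cdi v : ℍ).im_pos)
    exact h4.differentiableAt (by simp)
  have h5 : fderiv ℝ (VUB_P U) (VUB_e g, v) = (fderiv ℝ (QU.onC U) (VUB_N (VUB_e g, v))).comp (fderiv ℝ VUB_N (VUB_e g, v)) :=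
    fderiv_comp (VUB_e g, v) h3 h2
  rw [h5]
  show fderiv ℝ (QU.onC U) (VUB_N (VUB_e g, v)) (fderiv ℝ VUB_N (VUB_e g, v) (VDN_d g x b c, 0)) =
    fderiv ℝ (QU.onC U) (VUB_N (VUB_e g, v)) (fderiv ℝ VUB_N (VUB_e g, v) (0, VDN_w x b c v))
  rw [VDN_N (VUB_e g, v) hD, VDN_N (VUB_e g, v) hD]
  congr 1
  congr 1
  have e1 : ((VDN_d g x b c 0 0 : ℝ) : ℂ) = (g.1 0 0 : ℂ) * ((x : ℂ) / 2) + (g.1 0 1 : ℂ) * (c : ℂ) := by
    simp only [VDN_d, Matrix.mul_apply, Fin.sum_univ_two, Matrix.of_apply, Matrix.cons_val', Matrix.cons_val_zero, Matrix.cons_val_one]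
    push_cast
    rfl
  have e2 : ((VDN_d g x b c 0 1 : ℝ) : ℂ) = (g.1 0 0 : ℂ) * (b : ℂ) - (g.1 0 1 : ℂ) * ((x : ℂ) / 2) := by
    simp only [VDN_d, Matrix.mul_apply, Fin.sum_univ_two, Matrix.of_apply, Matrix.cons_val', Matrix.cons_val_zero, Matrix.cons_val_one]
    push_cast
    ring
  have e3 : ((VDN_d g x b c 1 0 : ℝ) : ℂ) = (g.1 1 0 : ℂ) * ((x : ℂ) / 2) + (g.1 1 1 : ℂ) * (c : ℂ) := by
    simp only [VDN_d, Matrix.mul_apply, Fin.sum_univ_two, Matrix.of_apply, Matrix.cons_val', Matrix.cons_val_zero, Matrix.cons_val_one]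
    push_cast
    rfl
  have e4 : ((VDN_d g x b c 1 1 : ℝ) : ℂ) = (g.1 1 0 : ℂ) * (b : ℂ) - (g.1 1 1 : ℂ) * ((x : ℂ) / 2) := by
    simp only [VDN_d, Matrix.mul_apply, Fin.sum_univ_two, Matrix.of_apply, Matrix.cons_val', Matrix.cons_val_zero, Matrix.cons_val_one]
    push_cast
    ring
  have e5 : VDN_w x b c v = (x : ℂ) * (1 - v ^ 2 / 4) + ((b : ℂ) - (c : ℂ)) * (Complex.I * v) - ((b : ℂ) + (c : ℂ)) * (Complex.I * (1 + v ^ 2 / 4)) := by
    unfold VDN_w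
    push_cast
    ring
  have e6 : ∀ i j : Fin 2, ((VUB_e g i j : ℝ) : ℂ) = (g.1 i j : ℂ) := fun i j => rfl
  simp only [e1, e2, e3, e4, e5, e6, Pi.zero_apply, Complex.ofReal_zero]
  have hI : Complex.I ^ 2 = -1 := Complex.I_sq
  ring_nf
  simp only [hI]
  ring_nf
/-- the derivative of `fderiv (VUB_P U)` along a curve of matrices -/
theorem VDN_mixed (h1 : VCD_stmt) (U : ℍ → ℝ) (hU : QU.CD ∞ U) (g : SL(2, ℝ)) (x b c : ℝ) (u : ℂ) :
    fderiv ℝ (fderiv ℝ (VUB_P U)) (VUB_e g, 0) (VDN_d g x b c, 0) (0, u) =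
      fderiv ℝ (fderiv ℝ (Ug U g)) 0 u ((x : ℂ) - ((b + c : ℝ) : ℂ) * Complex.I) +
        fderiv ℝ (Ug U g) 0 (((b - c : ℝ) : ℂ) * (Complex.I * u)) := by
  have h0 : ‖(0 : ℂ)‖ < 2 := by simp
  have hP := VUB_P_cd h1 U hU g 0 h0
  -- symmetry
  have hsym : fderiv ℝ (fderiv ℝ (VUB_P U)) (VUB_e g, 0) (VDN_d g x b c, 0) (0, u) =
      fderiv ℝ (fderiv ℝ (VUB_P U)) (VUB_e g, 0) (0, u) (VDN_d g x b c, 0) := by
    have h2 : IsSymmSndFDerivAt ℝ (VUB_P U) (VUB_e g, 0) :=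
      (hP.of_le (m := 2) (WithTop.coe_le_coe.2 (le_top : (2 : ℕ∞) ≤ ⊤))).isSymmSndFDerivAt (by simp)
    exact h2 _ _
  rw [hsym]
  -- the two functions of `w`
  have h2 : HasFDerivAt (fderiv ℝ (VUB_P U)) (fderiv ℝ (fderiv ℝ (VUB_P U)) (VUB_e g, 0)) (VUB_e g, 0) :=
    ((VUB_fP h1 U hU g 0 h0).differentiableAt (by simp)).hasFDerivAt
  have h3 : HasFDerivAt (fun w : ℂ => (VUB_e g, w)) (ContinuousLinearMap.inr ℝ (Fin 2 → Fin 2 → ℝ) ℂ) 0 := by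
    exact hasFDerivAt_prodMk_right (VUB_e g) 0
  have h4 := (h2.comp 0 h3).clm_apply (hasFDerivAt_const ((VDN_d g x b c, 0) : (Fin 2 → Fin 2 → ℝ) × ℂ) 0)
  have h5 : HasFDerivAt (fderiv ℝ (Ug U g)) (fderiv ℝ (fderiv ℝ (Ug U g)) 0) 0 := by
    have h6 : ContDiffAt ℝ ∞ (fderiv ℝ (Ug U g)) 0 := (VUB_Ug_cd h1 U hU g 0 h0).fderiv_right (m := ∞) (by simp)
    exact (h6.differentiableAt (by simp)).hasFDerivAt
  have hw : HasFDerivAt (VDN_w x b c) (((b - c : ℝ) : ℂ) • (Complex.I • (ContinuousLinearMap.id ℝ ℂ))) 0 := by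
    have e1 : HasDerivAt (VDN_w x b c) (((b - c : ℝ) : ℂ) * Complex.I) 0 := by
      have a1 : HasDerivAt (fun v : ℂ => (x : ℂ) * (1 - v ^ 2 / 4)) 0 0 := by
        have := ((((hasDerivAt_id (0 : ℂ)).pow 2).div_const 4).const_sub 1).const_mul (x : ℂ)
        simpa using this
      have a2 : HasDerivAt (fun v : ℂ => ((b - c : ℝ) : ℂ) * (Complex.I * v)) (((b - c : ℝ) : ℂ) * Complex.I) 0 := by
        have := ((hasDerivAt_id (0 : ℂ)).const_mul Complex.I).const_mul (((b - c : ℝ) : ℂ))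
        simpa using this
      have a3 : HasDerivAt (fun v : ℂ => ((b + c : ℝ) : ℂ) * (Complex.I * (1 + v ^ 2 / 4))) 0 0 := by
        have := (((((hasDerivAt_id (0 : ℂ)).pow 2).div_const 4).const_add 1).const_mul Complex.I).const_mul (((b + c : ℝ) : ℂ))
        simpa using this
      have a4 : HasDerivAt (VDN_w x b c) (0 + ((b - c : ℝ) : ℂ) * Complex.I - 0) 0 := (a1.add a2).sub a3
      rw [zero_add, sub_zero] at a4
      exact a4
    have e2 := e1.hasFDerivAt.restrictScalars ℝ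
    refine e2.congr_fderiv ?_
    refine ContinuousLinearMap.ext fun z => ?_
    simp only [ContinuousLinearMap.coe_restrictScalars', ContinuousLinearMap.toSpanSingleton_apply, ContinuousLinearMap.smul_apply,
      ContinuousLinearMap.coe_id', id_eq, smul_eq_mul]
    ring
  have h7 := h5.clm_apply hw
  have h8 : (fun w => fderiv ℝ (Ug U g) w (VDN_w x b c w)) =ᶠ[𝓝 0] fun w => fderiv ℝ (VUB_P U) (VUB_e g, w) (VDN_d g x b c, 0) := by
    have h9 : {w : ℂ | ‖w‖ < 2} ∈ 𝓝 (0 : ℂ) := (isOpen_lt continuous_norm continuous_const).mem_nhds h0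
    filter_upwards [h9] with w hw'
    rw [VUB_d1 h1 U hU g w hw', VDN_inv h1 U hU g w hw']
  have h10 := h7.unique (h4.congr_of_eventuallyEq h8)
  have h11 := congrArg (fun L : ℂ →L[ℝ] ℝ => L u) h10
  have hw0 : VDN_w x b c 0 = (x : ℂ) - ((b + c : ℝ) : ℂ) * Complex.I := by
    simp [VDN_w]
  rw [← hw0]
  simp only [ContinuousLinearMap.add_apply, ContinuousLinearMap.comp_apply, ContinuousLinearMap.flip_apply, ContinuousLinearMap.smul_apply,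
    ContinuousLinearMap.zero_apply, ContinuousLinearMap.coe_id', id_eq, smul_eq_mul, map_zero, zero_add, ContinuousLinearMap.inr_apply] at h11
  rw [← h11]
  exact add_comm _ _
theorem VDN_lin (L : ℂ →L[ℝ] ℝ) (x y : ℝ) : L ((x : ℂ) - ((y : ℝ) : ℂ) * Complex.I) = x * L 1 - y * L Complex.I := by
  have h1 : (x : ℂ) - ((y : ℝ) : ℂ) * Complex.I = x • (1 : ℂ) - y • Complex.I := by
    rw [Complex.real_smul, Complex.real_smul, mul_one]
  rw [h1, map_sub, map_smul, map_smul, smul_eq_mul, smul_eq_mul]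

theorem VDN_comp {E : Type} [NormedAddCommGroup E] [NormedSpace ℝ E] (F : E → ℝ) (c : ℝ → E) (c' w : E) (t : ℝ)
    (hF : DifferentiableAt ℝ (fderiv ℝ F) (c t)) (hc : HasDerivAt c c' t) :
    HasDerivAt (fun s => fderiv ℝ F (c s) w) (fderiv ℝ (fderiv ℝ F) (c t) c' w) t := by
  have h2 : HasDerivAt (fun s => fderiv ℝ F (c s)) (fderiv ℝ (fderiv ℝ F) (c t) c') t := hF.hasFDerivAt.comp_hasDerivAt t hc
  have h3 := h2.clm_apply (hasDerivAt_const t w)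
  rw [map_zero, add_zero] at h3
  exact h3

theorem VDN_proof (hVCD : VCD_stmt) : VDN_stmt := by
  intro Γ δ B U hP hδ γ t x b c E hE hγ
  have hU := hP.smooth
  have h0 : ‖(0 : ℂ)‖ < 2 := by simp
  have hc : HasDerivAt (fun s => VUB_e (γ s)) (VDN_d (γ t) x b c) t := by
    refine hasDerivAt_pi.2 fun i => hasDerivAt_pi.2 fun j => ?_
    exact hγ i j
  have hc2 : HasDerivAt (fun s => ((VUB_e (γ s), (0 : ℂ)) : (Fin 2 → Fin 2 → ℝ) × ℂ)) (VDN_d (γ t) x b c, 0) t :=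
    hc.prodMk (hasDerivAt_const t 0)
  have hcd : cdi 0 = I := by
    have h2 := (hVCD.1 I).2
    rwa [hVCD.2.2.1] at h2
  have hval : ∀ g : SL(2, ℝ), U (g • I) = VUB_P U (VUB_e g, 0) := by
    intro g
    rw [← VUB_Ug hVCD U g 0 h0]
    show U (g • I) = U (g • cdi 0)
    rw [hcd]
  have hn1 : ∀ g : SL(2, ℝ), n1 U g = fderiv ℝ (VUB_P U) (VUB_e g, 0) (0, 1) := fun g => VUB_d1 hVCD U hU g 0 h0 1
  have hn2 : ∀ g : SL(2, ℝ), n2 U g = fderiv ℝ (VUB_P U) (VUB_e g, 0) (0, Complex.I) := fun g => VUB_d1 hVCD U hU g 0 h0 Complex.I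
  have D1 : HasDerivAt (fun s => U (γ s • I)) (n1 U (γ t) * x - n2 U (γ t) * (b + c)) t := by
    have h2 : HasFDerivAt (VUB_P U) (fderiv ℝ (VUB_P U) (VUB_e (γ t), 0)) (VUB_e (γ t), 0) :=
      ((VUB_P_cd hVCD U hU (γ t) 0 h0).differentiableAt (by simp)).hasFDerivAt
    have h3 := h2.comp_hasDerivAt t hc2
    have h4 : fderiv ℝ (VUB_P U) (VUB_e (γ t), 0) (VDN_d (γ t) x b c, 0) = n1 U (γ t) * x - n2 U (γ t) * (b + c) := by
      rw [VDN_inv hVCD U hU (γ t) 0 h0, ← VUB_d1 hVCD U hU (γ t) 0 h0]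
      have hw0 : VDN_w x b c 0 = (x : ℂ) - ((b + c : ℝ) : ℂ) * Complex.I := by simp [VDN_w]
      rw [hw0, VDN_lin]
      show x * n1 U (γ t) - (b + c) * n2 U (γ t) = _
      ring
    rw [h4] at h3
    refine h3.congr_of_eventuallyEq (Eventually.of_forall fun s => ?_)
    exact hval (γ s)
  have D2 : ∀ u : ℂ, HasDerivAt (fun s => fderiv ℝ (VUB_P U) (VUB_e (γ s), 0) (0, u))
      (fderiv ℝ (fderiv ℝ (Ug U (γ t))) 0 u ((x : ℂ) - ((b + c : ℝ) : ℂ) * Complex.I) + fderiv ℝ (Ug U (γ t)) 0 (((b - c : ℝ) : ℂ) * (Complex.I * u))) t := by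
    intro u
    rw [← VDN_mixed hVCD U hU (γ t) x b c u]
    exact VDN_comp (VUB_P U) (fun s => (VUB_e (γ s), (0 : ℂ))) (VDN_d (γ t) x b c, 0) (0, u) t
      ((VUB_fP hVCD U hU (γ t) 0 h0).differentiableAt (by simp)) hc2
  have D3 : HasDerivAt (fun s => n1 U (γ s)) (hess U (γ t) 0 0 * x - hess U (γ t) 0 1 * (b + c) + (b - c) * n2 U (γ t)) t := by
    have h2 := D2 1
    have h3 : fderiv ℝ (fderiv ℝ (Ug U (γ t))) 0 1 ((x : ℂ) - ((b + c : ℝ) : ℂ) * Complex.I) + fderiv ℝ (Ug U (γ t)) 0 (((b - c : ℝ) : ℂ) * (Complex.I * 1)) =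
        hess U (γ t) 0 0 * x - hess U (γ t) 0 1 * (b + c) + (b - c) * n2 U (γ t) := by
      rw [VDN_lin, mul_one]
      have h4 : ((b - c : ℝ) : ℂ) * Complex.I = (b - c) • Complex.I := by rw [Complex.real_smul]
      rw [h4, map_smul, smul_eq_mul]
      show x * fderiv ℝ (fderiv ℝ (Ug U (γ t))) 0 1 1 - (b + c) * fderiv ℝ (fderiv ℝ (Ug U (γ t))) 0 1 Complex.I + (b - c) * n2 U (γ t) = _
      have e1 : hess U (γ t) 0 0 = fderiv ℝ (fderiv ℝ (Ug U (γ t))) 0 1 1 := by simp [hess, eb]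
      have e2 : hess U (γ t) 0 1 = fderiv ℝ (fderiv ℝ (Ug U (γ t))) 0 1 Complex.I := by simp [hess, eb]
      rw [e1, e2]
      ring
    rw [h3] at h2
    exact h2.congr_of_eventuallyEq (Eventually.of_forall fun s => hn1 (γ s))
  have D4 : HasDerivAt (fun s => n2 U (γ s)) (hess U (γ t) 1 0 * x - hess U (γ t) 1 1 * (b + c) - (b - c) * n1 U (γ t)) t := by
    have h2 := D2 Complex.I
    have h3 : fderiv ℝ (fderiv ℝ (Ug U (γ t))) 0 Complex.I ((x : ℂ) - ((b + c : ℝ) : ℂ) * Complex.I) +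
        fderiv ℝ (Ug U (γ t)) 0 (((b - c : ℝ) : ℂ) * (Complex.I * Complex.I)) =
        hess U (γ t) 1 0 * x - hess U (γ t) 1 1 * (b + c) - (b - c) * n1 U (γ t) := by
      rw [VDN_lin, Complex.I_mul_I]
      have h4 : ((b - c : ℝ) : ℂ) * (-1) = (-(b - c)) • (1 : ℂ) := by rw [Complex.real_smul]; push_cast; ring
      rw [h4, map_smul, smul_eq_mul]
      show x * fderiv ℝ (fderiv ℝ (Ug U (γ t))) 0 Complex.I 1 - (b + c) * fderiv ℝ (fderiv ℝ (Ug U (γ t))) 0 Complex.I Complex.I + -(b - c) * n1 U (γ t) = _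
      have e1 : hess U (γ t) 1 0 = fderiv ℝ (fderiv ℝ (Ug U (γ t))) 0 Complex.I 1 := by simp [hess, eb]
      have e2 : hess U (γ t) 1 1 = fderiv ℝ (fderiv ℝ (Ug U (γ t))) 0 Complex.I Complex.I := by simp [hess, eb]
      rw [e1, e2]
      ring
    rw [h3] at h2
    exact h2.congr_of_eventuallyEq (Eventually.of_forall fun s => hn2 (γ s))
  -- the speed
  have hpos : 0 < U (γ t • I) + 2 * E := by
    have h2 := hP.near (γ t) 0 (by simp) 0 (by norm_num)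
    rw [norm_iteratedFDeriv_zero] at h2
    have h3 : Ug U (γ t) 0 = U (γ t • I) := by
      show U (γ t • cdi 0) = _
      rw [hcd]
    rw [h3, Real.norm_eq_abs] at h2
    have h4 := abs_le.1 (h2.trans hδ)
    have h5 := abs_le.1 hE
    linarith [h4.1, h5.1]
  have D5 : HasDerivAt (fun s => rho U E (γ s)) ((n1 U (γ t) * x - n2 U (γ t) * (b + c)) / (2 * rho U E (γ t))) t := by
    exact (D1.add_const (2 * E)).sqrt hpos.ne'
  have hr : rho U E (γ t) ≠ 0 := (Real.sqrt_pos.2 hpos).ne'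
  refine ⟨D1, D3, D4, D5, ?_⟩
  have h2 := D4.div (D5.const_mul 2) (mul_ne_zero two_ne_zero hr)
  refine HasDerivAt.congr_deriv h2 ?_
  show _ = (hess U (γ t) 1 0 * x - hess U (γ t) 1 1 * (b + c) - (b - c) * n1 U (γ t)) / (2 * rho U E (γ t)) -
    n2 U (γ t) / (2 * rho U E (γ t)) * ((n1 U (γ t) * x - n2 U (γ t) * (b + c)) / (2 * rho U E (γ t))) / rho U E (γ t)
  field_simp

end

end Pool.Agent.VQ
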