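import Pool.Agent.helper73.VQ.VUBa

/-!
# Row `vq:VUB` (MP_07c750_an, project VQ): bounds and continuity of the potential data
-/

set_option autoImplicit false

open scoped MatrixGroups ContDiff Topology UpperHalfPlane ComplexConjugate ENNReal
open UpperHalfPlane MeasureTheory Filter Set

namespace Pool.Agent.VQ

open Pool.Agent.RS

noncomputable section

theorem VUB_cdi0 (hVCD : VCD_stmt) : cdi 0 = I := by
  have h2 := (hVCD.1 I).2
  rwa [hVCD.2.2.1] at h2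

theorem VUB_Ug0 (hVCD : VCD_stmt) (U : ℍ → ℝ) (g : SL(2, ℝ)) : Ug U g 0 = U (g • I) := by
  show U (g • cdi 0) = _
  rw [VUB_cdi0 hVCD]

/-- continuity of the entries -/
theorem VUB_ce : Continuous (VUB_e : SL(2, ℝ) → Fin 2 → Fin 2 → ℝ) := by
  refine continuous_pi fun i => continuous_pi fun j => ?_
  exact (continuous_subtype_val.matrix_elem i j)

/-- norm of the second derivative -/
theorem VUB_nd2 (f : ℂ → ℝ) (v : ℂ) : ‖fderiv ℝ (fderiv ℝ f) v‖ = ‖iteratedFDeriv ℝ 2 f v‖ := by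
  rw [← norm_iteratedFDeriv_one (f := fderiv ℝ f), norm_iteratedFDeriv_fderiv]

/-- the mean value inequality on balls -/
theorem VUB_mv {F : Type} [NormedAddCommGroup F] [NormedSpace ℝ F] (h : ℂ → F) (r b : ℝ) (hr : 0 ≤ r) (hd : ∀ x : ℂ, ‖x‖ ≤ r → DifferentiableAt ℝ h x)
    (hb : ∀ x : ℂ, ‖x‖ ≤ r → ‖iteratedFDeriv ℝ 1 h x‖ ≤ b) (w : ℂ) (hw : ‖w‖ ≤ r) : ‖h w - h 0‖ ≤ b * ‖w‖ := by
  have h1 := (convex_closedBall (0 : ℂ) r).norm_image_sub_le_of_norm_fderiv_le (𝕜 := ℝ) (f := h) (C := b)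
      (fun x hx => hd x (by simpa using hx)) (fun x hx => by rw [← norm_iteratedFDeriv_one]; exact hb x (by simpa using hx))
      (x := 0) (y := w) (by simpa using hr) (by simpa using hw)
  rwa [sub_zero] at h1

/-- the third order Taylor estimate -/
theorem VUB_taylor (f : ℂ → ℝ) (b : ℝ) (hf : ∀ v : ℂ, ‖v‖ ≤ 1 → ContDiffAt ℝ ∞ f v) (hb : ∀ v : ℂ, ‖v‖ ≤ 1 → ‖iteratedFDeriv ℝ 3 f v‖ ≤ b) (v : ℂ) (hv : ‖v‖ ≤ 1) :
    |f v - (f 0 + fderiv ℝ f 0 v + fderiv ℝ (fderiv ℝ f) 0 v v / 2)| ≤ b * ‖v‖ ^ 3 := by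
  have hb0 : 0 ≤ b := (norm_nonneg _).trans (hb 0 (by simp))
  have hf1 : ∀ w : ℂ, ‖w‖ ≤ 1 → ContDiffAt ℝ ∞ (fderiv ℝ f) w := fun w hw => (hf w hw).fderiv_right (m := ∞) (by simp)
  have hf2 : ∀ w : ℂ, ‖w‖ ≤ 1 → ContDiffAt ℝ ∞ (fderiv ℝ (fderiv ℝ f)) w := fun w hw => (hf1 w hw).fderiv_right (m := ∞) (by simp)
  have hball : ∀ w : ℂ, w ∈ Metric.closedBall (0 : ℂ) ‖v‖ → ‖w‖ ≤ ‖v‖ := fun w hw => by simpa using hw
  have hconv := convex_closedBall (0 : ℂ) ‖v‖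
  have h0 : (0 : ℂ) ∈ Metric.closedBall (0 : ℂ) ‖v‖ := by simp
  -- second derivative
  have s2 : ∀ w : ℂ, w ∈ Metric.closedBall (0 : ℂ) ‖v‖ → ‖fderiv ℝ (fderiv ℝ f) w - fderiv ℝ (fderiv ℝ f) 0‖ ≤ b * ‖v‖ := by
    intro w hw
    have h1 := VUB_mv (fderiv ℝ (fderiv ℝ f)) ‖v‖ b (norm_nonneg v) (fun x hx => (hf2 x (hx.trans hv)).differentiableAt (by simp))
      (fun x hx => by rw [norm_iteratedFDeriv_fderiv, norm_iteratedFDeriv_fderiv]; exact hb x (hx.trans hv)) w (hball w hw)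
    exact h1.trans (mul_le_mul_of_nonneg_left (hball w hw) hb0)
  -- first derivative
  have s1 : ∀ w : ℂ, w ∈ Metric.closedBall (0 : ℂ) ‖v‖ → ‖fderiv ℝ f w - fderiv ℝ f 0 - fderiv ℝ (fderiv ℝ f) 0 w‖ ≤ b * ‖v‖ ^ 2 := by
    intro w hw
    have h1 := hconv.norm_image_sub_le_of_norm_hasFDerivWithin_le (𝕜 := ℝ) (f := fun x => fderiv ℝ f x - fderiv ℝ (fderiv ℝ f) 0 x)
      (f' := fun x => fderiv ℝ (fderiv ℝ f) x - fderiv ℝ (fderiv ℝ f) 0) (C := b * ‖v‖)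
      (fun x hx => (((hf1 x ((hball x hx).trans hv)).differentiableAt (by simp)).hasFDerivAt.sub
        (fderiv ℝ (fderiv ℝ f) 0).hasFDerivAt).hasFDerivWithinAt) (fun x hx => s2 x hx) h0 hw
    rw [sub_zero, map_zero, sub_zero] at h1
    have h2 : fderiv ℝ f w - fderiv ℝ f 0 - fderiv ℝ (fderiv ℝ f) 0 w = fderiv ℝ f w - fderiv ℝ (fderiv ℝ f) 0 w - fderiv ℝ f 0 := by abel
    rw [h2]
    refine h1.trans ?_
    calc b * ‖v‖ * ‖w‖ ≤ b * ‖v‖ * ‖v‖ := mul_le_mul_of_nonneg_left (hball w hw) (by positivity)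
      _ = b * ‖v‖ ^ 2 := by ring
  -- the function
  have hsym : ∀ x y : ℂ, fderiv ℝ (fderiv ℝ f) 0 x y = fderiv ℝ (fderiv ℝ f) 0 y x := by
    intro x y
    have h2 : IsSymmSndFDerivAt ℝ f 0 :=
      ((hf 0 (by simp)).of_le (m := 2) (WithTop.coe_le_coe.2 (le_top : (2 : ℕ∞) ≤ ⊤))).isSymmSndFDerivAt (by simp)
    exact h2 x y
  have hq : ∀ x : ℂ, HasFDerivAt (fun y : ℂ => fderiv ℝ (fderiv ℝ f) 0 y y / 2) (fderiv ℝ (fderiv ℝ f) 0 x) x := by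
    intro x
    have h1 : HasFDerivAt (fun y : ℂ => fderiv ℝ (fderiv ℝ f) 0 y) (fderiv ℝ (fderiv ℝ f) 0) x := (fderiv ℝ (fderiv ℝ f) 0).hasFDerivAt
    have h2 := (h1.clm_apply (hasFDerivAt_id x)).mul_const (2 : ℝ)⁻¹
    refine (h2.congr_fderiv ?_).congr_of_eventuallyEq (Eventually.of_forall fun y => div_eq_mul_inv _ _)
    refine ContinuousLinearMap.ext fun y => ?_
    simp only [ContinuousLinearMap.smul_apply, ContinuousLinearMap.add_apply, ContinuousLinearMap.comp_apply, ContinuousLinearMap.flip_apply,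
      ContinuousLinearMap.coe_id', id_eq, smul_eq_mul]
    rw [hsym y x]
    ring
  have h3 := hconv.norm_image_sub_le_of_norm_hasFDerivWithin_le (𝕜 := ℝ) (f := fun x => f x - fderiv ℝ f 0 x - fderiv ℝ (fderiv ℝ f) 0 x x / 2)
      (f' := fun x => fderiv ℝ f x - fderiv ℝ f 0 - fderiv ℝ (fderiv ℝ f) 0 x) (C := b * ‖v‖ ^ 2)
      (fun x hx => ((((hf x ((hball x hx).trans hv)).differentiableAt (by simp)).hasFDerivAt.sub (fderiv ℝ f 0).hasFDerivAt).sub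
        (hq x)).hasFDerivWithinAt) (fun x hx => s1 x hx) h0 (y := v) (by simp)
  rw [sub_zero, map_zero, map_zero, Real.norm_eq_abs] at h3
  have h4 : f v - (f 0 + fderiv ℝ f 0 v + fderiv ℝ (fderiv ℝ f) 0 v v / 2) =
      f v - fderiv ℝ f 0 v - fderiv ℝ (fderiv ℝ f) 0 v v / 2 - (f 0 - 0 - 0 / 2) := by ring
  rw [h4]
  refine le_trans (le_of_eq ?_) (h3.trans (le_of_eq (by ring)))
  simp
theorem VUB_lin (L : ℂ →L[ℝ] ℝ) (v : ℂ) : L v = L 1 * v.re + L Complex.I * v.im := by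
  have h1 : v = v.re • (1 : ℂ) + v.im • Complex.I := by
    rw [Complex.real_smul, Complex.real_smul, mul_one]
    exact (Complex.re_add_im v).symm
  conv_lhs => rw [h1]
  rw [map_add, map_smul, map_smul, smul_eq_mul, smul_eq_mul]
  ring

theorem VUB_cont (h1 : VCD_stmt) (U : ℍ → ℝ) (hU : QU.CD ∞ U) (u : ℂ) :
    Continuous fun g : SL(2, ℝ) => fderiv ℝ (Ug U g) 0 u := by
  have h0 : ‖(0 : ℂ)‖ < 2 := by simp
  have h2 : (fun g : SL(2, ℝ) => fderiv ℝ (Ug U g) 0 u) = fun g : SL(2, ℝ) => fderiv ℝ (VUB_P U) (VUB_e g, 0) (0, u) :=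
    funext fun g => VUB_d1 h1 U hU g 0 h0 u
  rw [h2, continuous_iff_continuousAt]
  intro g
  have h3 : ContinuousAt (fderiv ℝ (VUB_P U)) (VUB_e g, 0) := (VUB_fP h1 U hU g 0 h0).continuousAt
  have h4 : ContinuousAt (fun g : SL(2, ℝ) => ((VUB_e g, (0 : ℂ)) : (Fin 2 → Fin 2 → ℝ) × ℂ)) g :=
    (VUB_ce.prodMk continuous_const).continuousAt
  have h5 : ContinuousAt (fun g : SL(2, ℝ) => fderiv ℝ (VUB_P U) (VUB_e g, 0)) g := ContinuousAt.comp (f := fun g : SL(2, ℝ) => ((VUB_e g, (0 : ℂ)) : (Fin 2 → Fin 2 → ℝ) × ℂ)) h3 h4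
  exact h5.clm_apply continuousAt_const

theorem VUB_cont2 (h1 : VCD_stmt) (U : ℍ → ℝ) (hU : QU.CD ∞ U) (u w : ℂ) :
    Continuous fun g : SL(2, ℝ) => fderiv ℝ (fderiv ℝ (Ug U g)) 0 u w := by
  have h0 : ‖(0 : ℂ)‖ < 2 := by simp
  have h2 : (fun g : SL(2, ℝ) => fderiv ℝ (fderiv ℝ (Ug U g)) 0 u w) =
      fun g : SL(2, ℝ) => fderiv ℝ (fderiv ℝ (VUB_P U)) (VUB_e g, 0) (0, u) (0, w) :=
    funext fun g => VUB_d2 h1 U hU g 0 h0 u w
  rw [h2, continuous_iff_continuousAt]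
  intro g
  have h3 : ContinuousAt (fderiv ℝ (fderiv ℝ (VUB_P U))) (VUB_e g, 0) :=
    ((VUB_fP h1 U hU g 0 h0).fderiv_right (m := ∞) (by simp)).continuousAt
  have h4 : ContinuousAt (fun g : SL(2, ℝ) => ((VUB_e g, (0 : ℂ)) : (Fin 2 → Fin 2 → ℝ) × ℂ)) g :=
    (VUB_ce.prodMk continuous_const).continuousAt
  have h5 : ContinuousAt (fun g : SL(2, ℝ) => fderiv ℝ (fderiv ℝ (VUB_P U)) (VUB_e g, 0)) g := ContinuousAt.comp (f := fun g : SL(2, ℝ) => ((VUB_e g, (0 : ℂ)) : (Fin 2 → Fin 2 → ℝ) × ℂ)) h3 h4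
  exact (h5.clm_apply continuousAt_const).clm_apply continuousAt_const

theorem VUB_proof (hVCD : VCD_stmt) : VUB_stmt := by
  intro Γ δ B U hP hδ
  have hU := hP.smooth
  have h0 : ‖(0 : ℂ)‖ < 2 := by simp
  have h01 : ‖(0 : ℂ)‖ ≤ 1 := by simp
  have hval : ∀ g : SL(2, ℝ), |U (g • I) - 1| ≤ δ := by
    intro g
    have h2 := hP.near g 0 h01 0 (by norm_num)
    rwa [norm_iteratedFDeriv_zero, VUB_Ug0 hVCD, Real.norm_eq_abs] at h2
  have hδ0 : 0 ≤ δ := (abs_nonneg _).trans (hval 1)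
  have hfd' : ∀ g : SL(2, ℝ), fderiv ℝ (fun w => Ug U g w - 1) = fderiv ℝ (Ug U g) := fun g =>
    funext fun v => fderiv_sub_const _
  have hd1 : ∀ (g : SL(2, ℝ)) (v : ℂ), ‖v‖ ≤ 1 → ‖fderiv ℝ (Ug U g) v‖ ≤ δ := by
    intro g v hv
    have h2 := hP.near g v hv 1 (by norm_num)
    rwa [norm_iteratedFDeriv_one, hfd'] at h2
  have hd2 : ∀ (g : SL(2, ℝ)) (v : ℂ), ‖v‖ ≤ 1 → ‖fderiv ℝ (fderiv ℝ (Ug U g)) v‖ ≤ δ := by
    intro g v hv
    have h2 := hP.near g v hv 2 (by norm_num)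
    rwa [← VUB_nd2, hfd'] at h2
  have heb : ∀ i, ‖eb i‖ = 1 := by
    intro i
    unfold eb
    split_ifs
    · simp
    · simp
  have hn1 : ∀ g : SL(2, ℝ), |n1 U g| ≤ δ := by
    intro g
    have h2 := (fderiv ℝ (Ug U g) 0).le_opNorm 1
    rw [norm_one, mul_one] at h2
    exact h2.trans (hd1 g 0 h01)
  have hn2 : ∀ g : SL(2, ℝ), |n2 U g| ≤ δ := by
    intro g
    have h2 := (fderiv ℝ (Ug U g) 0).le_opNorm Complex.I
    rw [Complex.norm_I, mul_one] at h2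
    exact h2.trans (hd1 g 0 h01)
  have hhe : ∀ (g : SL(2, ℝ)) i j, |hess U g i j| ≤ δ := by
    intro g i j
    have h2 := (fderiv ℝ (fderiv ℝ (Ug U g)) 0).le_opNorm₂ (eb i) (eb j)
    rw [heb, heb, mul_one, mul_one] at h2
    exact h2.trans (hd2 g 0 h01)
  have hsym : ∀ (g : SL(2, ℝ)) (x y : ℂ), fderiv ℝ (fderiv ℝ (Ug U g)) 0 x y = fderiv ℝ (fderiv ℝ (Ug U g)) 0 y x := by
    intro g x y
    have h2 : IsSymmSndFDerivAt ℝ (Ug U g) 0 :=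
      ((VUB_Ug_cd hVCD U hU g 0 h0).of_le (m := 2) (WithTop.coe_le_coe.2 (le_top : (2 : ℕ∞) ≤ ⊤))).isSymmSndFDerivAt (by simp)
    exact h2 x y
  -- the speed
  have hsq : ∀ (E : ℝ) (g : SL(2, ℝ)), |E| ≤ 1 / 8 → 13 / 20 ≤ U (g • I) + 2 * E ∧ U (g • I) + 2 * E ≤ 27 / 20 := by
    intro E g hE
    have h2 := abs_le.1 ((hval g).trans hδ)
    have h3 := abs_le.1 hE
    constructor <;> linarith [h2.1, h2.2, h3.1, h3.2]
  have hrho : ∀ (E : ℝ) (g : SL(2, ℝ)), |E| ≤ 1 / 8 → 4 / 5 ≤ rho U E g ∧ rho U E g ≤ 6 / 5 ∧ rho U E g ^ 2 = U (g • I) + 2 * E := by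
    intro E g hE
    obtain ⟨h2, h3⟩ := hsq E g hE
    refine ⟨Real.le_sqrt_of_sq_le (by norm_num; linarith), Real.sqrt_le_iff.2 ⟨by norm_num, by norm_num; linarith⟩,
      Real.sq_sqrt (by linarith)⟩
  have hcn1 : Continuous (n1 U) := VUB_cont hVCD U hU 1
  have hcn2 : Continuous (n2 U) := VUB_cont hVCD U hU Complex.I
  have hcU : Continuous fun g : SL(2, ℝ) => U (g • I) := by
    have h2 : (fun g : SL(2, ℝ) => U (g • I)) = fun g : SL(2, ℝ) => VUB_P U (VUB_e g, 0) :=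
      funext fun g => by rw [← VUB_Ug0 hVCD U g, VUB_Ug hVCD U g 0 h0]
    rw [h2, continuous_iff_continuousAt]
    intro g
    have h3 : ContinuousAt (VUB_P U) (VUB_e g, 0) := (VUB_P_cd hVCD U hU g 0 h0).continuousAt
    have h4 : ContinuousAt (fun g : SL(2, ℝ) => ((VUB_e g, (0 : ℂ)) : (Fin 2 → Fin 2 → ℝ) × ℂ)) g :=
      (VUB_ce.prodMk continuous_const).continuousAt
    exact ContinuousAt.comp (f := fun g : SL(2, ℝ) => ((VUB_e g, (0 : ℂ)) : (Fin 2 → Fin 2 → ℝ) × ℂ)) h3 h4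
  have hcr : Continuous (fun p : ℝ × SL(2, ℝ) => rho U p.1 p.2) :=
    ((hcU.comp continuous_snd).add (continuous_const.mul continuous_fst)).sqrt
  -- invariance
  have hinv : ∀ (γ : Γ) (g : SL(2, ℝ)), Ug U ((γ : SL(2, ℝ)) * g) = Ug U g := by
    intro γ g
    funext v
    show U (((γ : SL(2, ℝ)) * g) • cdi v) = U (g • cdi v)
    rw [mul_smul]
    exact hP.inv.2 γ (g • cdi v)
  have hinv0 : ∀ (γ : Γ) (g : SL(2, ℝ)), U (((γ : SL(2, ℝ)) * g) • I) = U (g • I) := by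
    intro γ g
    rw [mul_smul]
    exact hP.inv.2 γ (g • I)
  have hi1 : ∀ (γ : Γ) (g : SL(2, ℝ)), n1 U ((γ : SL(2, ℝ)) * g) = n1 U g := fun γ g => by rw [n1, n1, hinv]
  have hi2 : ∀ (γ : Γ) (g : SL(2, ℝ)), n2 U ((γ : SL(2, ℝ)) * g) = n2 U g := fun γ g => by rw [n2, n2, hinv]
  have hir : ∀ (γ : Γ) (g : SL(2, ℝ)) (E : ℝ), rho U E ((γ : SL(2, ℝ)) * g) = rho U E g := fun γ g E => by rw [rho, rho, hinv0]
  refine ⟨⟨hP.inv, ?_⟩, fun g => ⟨hval g, hn1 g, hn2 g, hhe g, ?_⟩, fun E g hE => ?_, ⟨hcn1, hcn2, fun i j => ?_, hcr, ?_⟩,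
    fun γ g E => ⟨hinv γ g, hi1 γ g, hi2 γ g, ?_, hir γ g E, ?_⟩, fun g v hv => ⟨VUB_Ug_cd hVCD U hU g v (by linarith), ?_⟩, fun g v hv => ?_⟩
  · intro z
    have h2 := abs_le.1 ((hval (toSL2R z)).trans hδ)
    rw [toSL2R_smul_I] at h2
    constructor <;> linarith [h2.1, h2.2]
  · exact hsym g _ _
  · obtain ⟨h2, h3, h4⟩ := hrho E g hE
    have h5 : kap U E g * rho U E g = n2 U g / 2 := by
      unfold kap
      have : rho U E g ≠ 0 := by linarith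
      field_simp
    refine ⟨h2, h3, h4, ?_, h5⟩
    unfold kap
    rw [abs_div, div_le_iff₀ (by rw [abs_pos]; positivity), abs_of_pos (by linarith : 0 < 2 * rho U E g)]
    nlinarith [hn2 g]
  · exact VUB_cont2 hVCD U hU (eb i) (eb j)
  · refine ContinuousOn.div (hcn2.comp continuous_snd).continuousOn (continuous_const.mul hcr).continuousOn ?_
    intro p hp
    have h2 := (hrho p.1 p.2 hp).1
    have h3 : 0 < 2 * rho U p.1 p.2 := by linarith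
    exact h3.ne'
  · unfold hess
    rw [hinv]
  · rw [kap, kap, hi2, hir]
  · have h2 := VUB_mv (Ug U g) 1 δ zero_le_one (fun x hx => (VUB_Ug_cd hVCD U hU g x (by linarith)).differentiableAt (by simp))
      (fun x hx => by rw [norm_iteratedFDeriv_one]; exact hd1 g x hx) v hv
    exact h2
  · have h2 := VUB_taylor (Ug U g) (B 3) (fun x hx => VUB_Ug_cd hVCD U hU g x (by linarith)) (fun x hx => hP.bd g x hx 3) v hv
    have hB : 0 ≤ B 3 := (norm_nonneg _).trans (hP.bd g 0 h01 3)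
    have h3 : fderiv ℝ (Ug U g) 0 v = n1 U g * v.re + n2 U g * v.im := VUB_lin _ v
    have h4 : fderiv ℝ (fderiv ℝ (Ug U g)) 0 v v = hess U g 0 0 * v.re ^ 2 + 2 * hess U g 0 1 * v.re * v.im + hess U g 1 1 * v.im ^ 2 := by
      have e0 : eb 0 = 1 := by simp [eb]
      have e1 : eb 1 = Complex.I := by simp [eb]
      have a1 := VUB_lin (fderiv ℝ (fderiv ℝ (Ug U g)) 0 v) v
      have a2 : fderiv ℝ (fderiv ℝ (Ug U g)) 0 v 1 = hess U g 0 0 * v.re + hess U g 0 1 * v.im := by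
        rw [hsym, VUB_lin]
        show _ = fderiv ℝ (fderiv ℝ (Ug U g)) 0 (eb 0) (eb 0) * v.re + fderiv ℝ (fderiv ℝ (Ug U g)) 0 (eb 0) (eb 1) * v.im
        rw [e0, e1]
      have a3 : fderiv ℝ (fderiv ℝ (Ug U g)) 0 v Complex.I = hess U g 0 1 * v.re + hess U g 1 1 * v.im := by
        rw [hsym, VUB_lin, hsym g Complex.I 1]
        show _ = fderiv ℝ (fderiv ℝ (Ug U g)) 0 (eb 0) (eb 1) * v.re + fderiv ℝ (fderiv ℝ (Ug U g)) 0 (eb 1) (eb 1) * v.im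
        rw [e0, e1]
      rw [a1, a2, a3]
      ring
    rw [VUB_Ug0 hVCD, h3, h4] at h2
    have h5 : U (g • I) + n1 U g * v.re + n2 U g * v.im + (hess U g 0 0 * v.re ^ 2 + 2 * hess U g 0 1 * v.re * v.im + hess U g 1 1 * v.im ^ 2) / 2 =
      U (g • I) + (n1 U g * v.re + n2 U g * v.im) + (hess U g 0 0 * v.re ^ 2 + 2 * hess U g 0 1 * v.re * v.im + hess U g 1 1 * v.im ^ 2) / 2 := by ring
    rw [h5]
    refine h2.trans ?_
    have h6 : 0 ≤ B 3 * ‖v‖ ^ 3 := by positivity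
    nlinarith

end

end Pool.Agent.VQ
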