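import Pool.Agent.helper80.VQ.SpecFL
import Pool.Agent.helper73.VQ.VUB

/-!
# Row `vq:VUG` (MP_07c750_an, project VQ): bounds, continuity and invariance for general potentials
-/

set_option autoImplicit false

open scoped MatrixGroups ContDiff Topology UpperHalfPlane ComplexConjugate ENNReal
open UpperHalfPlane MeasureTheory Filter Set

namespace Pool.Agent.VQ

open Pool.Agent.RS
open Pool.Agent.VQE (nm)

noncomputable section

theorem VUG_proof (hVCD : VCD_stmt) : VUG_stmt := by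
  intro Γ e B U hP
  have he := hP.pos
  have hU := hP.smooth
  have h0 : ‖(0 : ℂ)‖ < 2 := by simp
  have h01 : ‖(0 : ℂ)‖ ≤ 1 := by simp
  have hval : ∀ g : SL(2, ℝ), |U (g • I)| ≤ B 0 := by
    intro g
    have h2 := hP.bd g 0 h01 0
    rwa [norm_iteratedFDeriv_zero, VUB_Ug0 hVCD, Real.norm_eq_abs] at h2
  have hd1 : ∀ (g : SL(2, ℝ)) (v : ℂ), ‖v‖ ≤ 1 → ‖fderiv ℝ (Ug U g) v‖ ≤ B 1 := by
    intro g v hv
    have h2 := hP.bd g v hv 1
    rwa [norm_iteratedFDeriv_one] at h2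
  have hd2 : ∀ (g : SL(2, ℝ)) (v : ℂ), ‖v‖ ≤ 1 → ‖fderiv ℝ (fderiv ℝ (Ug U g)) v‖ ≤ B 2 := by
    intro g v hv
    have h2 := hP.bd g v hv 2
    rwa [← VUB_nd2] at h2
  have heb : ∀ i, ‖eb i‖ = 1 := by
    intro i
    unfold eb
    split_ifs
    · simp
    · simp
  have hn1 : ∀ g : SL(2, ℝ), |n1 U g| ≤ B 1 := by
    intro g
    have h2 := (fderiv ℝ (Ug U g) 0).le_opNorm 1
    rw [norm_one, mul_one] at h2
    exact h2.trans (hd1 g 0 h01)
  have hn2 : ∀ g : SL(2, ℝ), |n2 U g| ≤ B 1 := by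
    intro g
    have h2 := (fderiv ℝ (Ug U g) 0).le_opNorm Complex.I
    rw [Complex.norm_I, mul_one] at h2
    exact h2.trans (hd1 g 0 h01)
  have hhe : ∀ (g : SL(2, ℝ)) i j, |hess U g i j| ≤ B 2 := by
    intro g i j
    have h2 := (fderiv ℝ (fderiv ℝ (Ug U g)) 0).le_opNorm₂ (eb i) (eb j)
    rw [heb, heb, mul_one, mul_one] at h2
    exact h2.trans (hd2 g 0 h01)
  have hsym : ∀ (g : SL(2, ℝ)) (x y : ℂ), fderiv ℝ (fderiv ℝ (Ug U g)) 0 x y = fderiv ℝ (fderiv ℝ (Ug U g)) 0 y x := by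
    intro g x y
    have h2 : IsSymmSndFDerivAt ℝ (Ug U g) 0 :=
      ((VUB_Ug_cd hVCD U hU g 0 h0).of_le (m := 2) (WithTop.coe_le_coe.2 (le_top : (2 : ℕ∞) ≤ ⊤))).isSymmSndFDerivAt (by simp)
    exact h2 x y
  -- the speed
  have hrho : ∀ (E : ℝ) (g : SL(2, ℝ)), |E| ≤ e → 0 < rho U E g ∧ rho U E g ^ 2 = U (g • I) + 2 * E ∧ 2 * e ≤ rho U E g ^ 2 ∧ rho U E g ^ 2 ≤ B 0 + 2 * e := by
    intro E g hE
    have h2 := hP.lo (g • I)
    have h3 := abs_le.1 hE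
    have h4 := (abs_le.1 (hval g)).2
    have h5 : 0 < U (g • I) + 2 * E := by linarith [h3.1]
    have h6 : rho U E g ^ 2 = U (g • I) + 2 * E := Real.sq_sqrt h5.le
    refine ⟨Real.sqrt_pos.2 h5, h6, ?_, ?_⟩
    · rw [h6]; linarith [h3.1]
    · rw [h6]; linarith [h3.2]
  have hcn1 : Continuous (n1 U) := VUB_cont hVCD U hU 1
  have hcn2 : Continuous (n2 U) := VUB_cont hVCD U hU Complex.I
  have hcU : Continuous fun g : SL(2, ℝ) => U (g • I) := by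
    have h2 : (fun g : SL(2, ℝ) => U (g • I)) = fun g : SL(2, ℝ) => VUB_P U (VUB_e g, 0) :=
      funext fun g => by rw [← VUB_Ug0 hVCD U g, VUB_Ug hVCD U g 0 h0]
    rw [h2, continuous_iff_continuousAt]
    intro g
    have h3 : ContinuousAt (VUB_P U) (VUB_e g, 0) := (VUB_P_cd hVCD U hU g 0 h0).continuousAt
    have h4 : ContinuousAt (fun g : SL(2, ℝ) => ((VUB_e g, (0 : ℂ)) : (Fin 2 → Fin 2 → ℝ) × ℂ)) g :=
      (VUB_ce.prodMk continuous_const).continuousAt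
    exact ContinuousAt.comp (f := fun g : SL(2, ℝ) => ((VUB_e g, (0 : ℂ)) : (Fin 2 → Fin 2 → ℝ) × ℂ)) h3 h4
  have hcr : Continuous (fun p : ℝ × SL(2, ℝ) => rho U p.1 p.2) :=
    ((hcU.comp continuous_snd).add (continuous_const.mul continuous_fst)).sqrt
  -- invariance
  have hinv : ∀ (γ : Γ) (g : SL(2, ℝ)), Ug U ((γ : SL(2, ℝ)) * g) = Ug U g := by
    intro γ g
    funext v
    show U (((γ : SL(2, ℝ)) * g) • cdi v) = U (g • cdi v)
    rw [mul_smul]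
    exact hP.inv.2 γ (g • cdi v)
  have hinv0 : ∀ (γ : Γ) (g : SL(2, ℝ)), U (((γ : SL(2, ℝ)) * g) • I) = U (g • I) := by
    intro γ g
    rw [mul_smul]
    exact hP.inv.2 γ (g • I)
  have hi1 : ∀ (γ : Γ) (g : SL(2, ℝ)), n1 U ((γ : SL(2, ℝ)) * g) = n1 U g := fun γ g => by rw [n1, n1, hinv]
  have hi2 : ∀ (γ : Γ) (g : SL(2, ℝ)), n2 U ((γ : SL(2, ℝ)) * g) = n2 U g := fun γ g => by rw [n2, n2, hinv]
  have hir : ∀ (γ : Γ) (g : SL(2, ℝ)) (E : ℝ), rho U E ((γ : SL(2, ℝ)) * g) = rho U E g := fun γ g E => by rw [rho, rho, hinv0]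
  refine ⟨fun g => ⟨hP.lo (g • I), (abs_le.1 (hval g)).2, hn1 g, hn2 g, hhe g, ?_⟩, fun E g hE => ?_, ⟨hcn1, hcn2, fun i j => ?_, hcr, ?_⟩,
    fun γ g E => ⟨hinv γ g, hi1 γ g, hi2 γ g, ?_, hir γ g E, ?_⟩, fun g v hv => VUB_Ug_cd hVCD U hU g v (by linarith)⟩
  · exact hsym g _ _
  · obtain ⟨h2, h3, h4, h5⟩ := hrho E g hE
    refine ⟨h2, h3, h4, h5, ?_⟩
    unfold kap
    have : rho U E g ≠ 0 := h2.ne'
    field_simp
  · exact VUB_cont2 hVCD U hU (eb i) (eb j)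
  · refine ContinuousOn.div (hcn2.comp continuous_snd).continuousOn (continuous_const.mul hcr).continuousOn ?_
    intro p hp
    have h2 := (hrho p.1 p.2 hp).1
    have h3 : 0 < 2 * rho U p.1 p.2 := by linarith
    exact h3.ne'
  · unfold hess
    rw [hinv]
  · rw [kap, kap, hi2, hir]

end

end Pool.Agent.VQ
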