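import Pool.Agent.helper73.VQ.VUB

/-!
# Row `vq:VR3` (MP_07c750_an, project VQ): the remainder vanishes to third order
-/

set_option autoImplicit false

open scoped MatrixGroups ContDiff Topology UpperHalfPlane ComplexConjugate ENNReal
open UpperHalfPlane MeasureTheory Filter Set

namespace Pool.Agent.VQ

open Pool.Agent.RS

noncomputable section

/-! ## The algebraic identity -/

/-- the fixed polynomials, `X = v.re`, `Y = v.im` -/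
def VR3_E (X Y : ℂ) : Fin 13 → ℂ :=
  ![-(1 / 4) * (X ^ 2 - Y ^ 2) * X + 1 / 2 * (X ^ 2 + Y ^ 2) * X - 1 / 16 * (X ^ 2 + Y ^ 2) ^ 2 * X,
    -(1 / 4) * (X ^ 2 - Y ^ 2) * Y - 1 / 2 * X ^ 2 * Y + 1 / 2 * (X ^ 2 + Y ^ 2) * Y - 1 / 16 * (X ^ 2 + Y ^ 2) ^ 2 * Y,
    -(1 / 2) * X * Y ^ 2,
    1 / 4 * (X ^ 2 + Y ^ 2) * X ^ 2 - 1 / 32 * (X ^ 2 + Y ^ 2) ^ 2 * X ^ 2,
    1 / 2 * (X ^ 2 + Y ^ 2) * X * Y - 1 / 16 * (X ^ 2 + Y ^ 2) ^ 2 * X * Y,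
    1 / 4 * (X ^ 2 + Y ^ 2) * Y ^ 2 - 1 / 32 * (X ^ 2 + Y ^ 2) ^ 2 * Y ^ 2,
    -(1 / 32) * (X ^ 2 + Y ^ 2) ^ 2,
    -(1 / 2), -(1 / 2) * X, -(1 / 2) * Y, -(1 / 4) * X ^ 2, -(1 / 2) * X * Y, -(1 / 4) * Y ^ 2]

/-- the coefficients -/
def VR3_c (ρ a m b u n n' h00 h01 h11 : ℂ) : Fin 13 → ℂ :=
  ![ρ * a, ρ * m, ρ * b, a ^ 2 + m ^ 2, m * (a + b), m ^ 2 + b ^ 2, ρ ^ 2, u, n, n', h00, h01, h11]

theorem VR3_id (D : Dyn) (t : ℝ) (p : SL(2, ℝ) × ℝ) (v : ℂ) (hs : D.M p.2 t p.1 0 1 = D.M p.2 t p.1 1 0)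
    (hh : hess D.U (D.fl p.2 t p.1) 0 1 = hess D.U (D.fl p.2 t p.1) 1 0)
    (hk : kap D.U p.2 (D.fl p.2 t p.1) * rho D.U p.2 (D.fl p.2 t p.1) = n2 D.U (D.fl p.2 t p.1) / 2) :
    r3 D t p v = (∑ j, VR3_c (rho D.U p.2 (D.fl p.2 t p.1)) (D.M p.2 t p.1 0 0) (D.M p.2 t p.1 0 1) (D.M p.2 t p.1 1 1)
      (D.U (D.fl p.2 t p.1 • I)) (n1 D.U (D.fl p.2 t p.1)) (n2 D.U (D.fl p.2 t p.1)) (hess D.U (D.fl p.2 t p.1) 0 0)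
      (hess D.U (D.fl p.2 t p.1) 0 1) (hess D.U (D.fl p.2 t p.1) 1 1) j * VR3_E (v.re : ℂ) (v.im : ℂ) j) + ((Ug D.U (D.fl p.2 t p.1) v / 2 : ℝ) : ℂ) := by
  unfold r3
  dsimp only
  generalize D.fl p.2 t p.1 = g at *
  generalize D.M p.2 t p.1 = M at *
  have hK : ∀ i j, KK D.U p.2 g i j = ((hess D.U g i j / 2 + if i = 1 ∧ j = 1 then rho D.U p.2 g ^ 2 else 0 : ℝ) : ℂ) := fun i j => rfl
  generalize rho D.U p.2 g = ρ at *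
  generalize kap D.U p.2 g = κ at *
  generalize KK D.U p.2 g = Kk at *
  have hre : (XV ρ κ v).re = ρ * (1 - (v.re ^ 2 - v.im ^ 2) / 4) - κ * v.im := by
    simp [XV, pow_two, Complex.mul_re, Complex.mul_im]
    ring
  have him : (XV ρ κ v).im = -(ρ * (v.re * v.im) / 2) + κ * v.re := by
    simp [XV, pow_two, Complex.mul_re, Complex.mul_im]
    ring
  have hn : ‖v‖ ^ 2 = v.re ^ 2 + v.im ^ 2 := by
    rw [Complex.sq_norm, Complex.normSq_apply]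
    ring
  have hk' : (κ : ℂ) * (ρ : ℂ) = (n2 D.U g : ℂ) / 2 := by
    rw [← Complex.ofReal_mul, hk]
    push_cast
    rfl
  have k00 : Kk 0 0 = (hess D.U g 0 0 : ℂ) / 2 := by rw [hK]; simp
  have k01 : Kk 0 1 = (hess D.U g 1 0 : ℂ) / 2 := by rw [hK, hh]; simp
  have k10 : Kk 1 0 = (hess D.U g 1 0 : ℂ) / 2 := by rw [hK]; simp
  have k11 : Kk 1 1 = (hess D.U g 1 1 : ℂ) / 2 + (ρ : ℂ) ^ 2 := by rw [hK]; simp
  have j1 : ∀ i, (JJ * M) 0 i = M 1 i := by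
    intro i
    simp [JJ, Matrix.mul_apply, Fin.sum_univ_two]
  have j2 : ∀ i, (JJ * M) 1 i = -M 0 i := by
    intro i
    simp [JJ, Matrix.mul_apply, Fin.sum_univ_two]
  have j3 : ∀ i, (M * JJ) i 0 = -M i 1 := by
    intro i
    simp [JJ, Matrix.mul_apply, Fin.sum_univ_two]
  have j4 : ∀ i, (M * JJ) i 1 = M i 0 := by
    intro i
    simp [JJ, Matrix.mul_apply, Fin.sum_univ_two]
  have hMM : ∀ i j, (M * M) i j = M i 0 * M 0 j + M i 1 * M 1 j := by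
    intro i j
    rw [Matrix.mul_apply, Fin.sum_univ_two]
  simp only [VR3_c, VR3_E, Fin.sum_univ_succ, Fin.sum_univ_zero, Matrix.cons_val_zero, Matrix.cons_val_succ, Matrix.cons_val_one, qf,
    Matrix.sub_apply, Matrix.add_apply, Matrix.smul_apply, smul_eq_mul, j1, j2, j3, j4, hMM, k00, k01, k10, k11, hre, him, hn, hs, hh]
  push_cast
  linear_combination (-(v.im : ℂ)) * hk'

/-! ## Functions which vanish to third order -/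

/-- the third order Taylor estimate -/
theorem VR3_taylor {F : Type} [NormedAddCommGroup F] [NormedSpace ℝ F] (f : ℂ → F) (b : ℝ) (hf : ∀ v : ℂ, ‖v‖ ≤ 1 → ContDiffAt ℝ ∞ f v)
    (hb : ∀ v : ℂ, ‖v‖ ≤ 1 → ‖iteratedFDeriv ℝ 3 f v‖ ≤ b) (v : ℂ) (hv : ‖v‖ ≤ 1) :
    ‖f v - (f 0 + fderiv ℝ f 0 v + (2 : ℝ)⁻¹ • fderiv ℝ (fderiv ℝ f) 0 v v)‖ ≤ b * ‖v‖ ^ 3 := by
  have hb0 : 0 ≤ b := (norm_nonneg _).trans (hb 0 (by simp))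
  have hf1 : ∀ w : ℂ, ‖w‖ ≤ 1 → ContDiffAt ℝ ∞ (fderiv ℝ f) w := fun w hw => (hf w hw).fderiv_right (m := ∞) (by simp)
  have hf2 : ∀ w : ℂ, ‖w‖ ≤ 1 → ContDiffAt ℝ ∞ (fderiv ℝ (fderiv ℝ f)) w := fun w hw => (hf1 w hw).fderiv_right (m := ∞) (by simp)
  have hball : ∀ w : ℂ, w ∈ Metric.closedBall (0 : ℂ) ‖v‖ → ‖w‖ ≤ ‖v‖ := fun w hw => by simpa using hw
  have hconv := convex_closedBall (0 : ℂ) ‖v‖
  have h0 : (0 : ℂ) ∈ Metric.closedBall (0 : ℂ) ‖v‖ := by simp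
  -- second derivative
  have s2 : ∀ w : ℂ, w ∈ Metric.closedBall (0 : ℂ) ‖v‖ → ‖fderiv ℝ (fderiv ℝ f) w - fderiv ℝ (fderiv ℝ f) 0‖ ≤ b * ‖v‖ := by
    intro w hw
    have h1 := VUB_mv (fderiv ℝ (fderiv ℝ f)) ‖v‖ b (norm_nonneg v) (fun x hx => (hf2 x (hx.trans hv)).differentiableAt (by simp))
      (fun x hx => by rw [norm_iteratedFDeriv_fderiv, norm_iteratedFDeriv_fderiv]; exact hb x (hx.trans hv)) w (hball w hw)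
    exact h1.trans (mul_le_mul_of_nonneg_left (hball w hw) hb0)
  -- first derivative
  have s1 : ∀ w : ℂ, w ∈ Metric.closedBall (0 : ℂ) ‖v‖ → ‖fderiv ℝ f w - fderiv ℝ f 0 - fderiv ℝ (fderiv ℝ f) 0 w‖ ≤ b * ‖v‖ ^ 2 := by
    intro w hw
    have h1 := hconv.norm_image_sub_le_of_norm_hasFDerivWithin_le (𝕜 := ℝ) (f := fun x => fderiv ℝ f x - fderiv ℝ (fderiv ℝ f) 0 x)
      (f' := fun x => fderiv ℝ (fderiv ℝ f) x - fderiv ℝ (fderiv ℝ f) 0) (C := b * ‖v‖)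
      (fun x hx => (((hf1 x ((hball x hx).trans hv)).differentiableAt (by simp)).hasFDerivAt.sub
        (fderiv ℝ (fderiv ℝ f) 0).hasFDerivAt).hasFDerivWithinAt) (fun x hx => s2 x hx) h0 hw
    rw [sub_zero, map_zero, sub_zero] at h1
    have h2 : fderiv ℝ f w - fderiv ℝ f 0 - fderiv ℝ (fderiv ℝ f) 0 w = fderiv ℝ f w - fderiv ℝ (fderiv ℝ f) 0 w - fderiv ℝ f 0 := by abel
    rw [h2]
    refine h1.trans ?_
    calc b * ‖v‖ * ‖w‖ ≤ b * ‖v‖ * ‖v‖ := mul_le_mul_of_nonneg_left (hball w hw) (by positivity)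
      _ = b * ‖v‖ ^ 2 := by ring
  -- the function
  have hsym : ∀ x y : ℂ, fderiv ℝ (fderiv ℝ f) 0 x y = fderiv ℝ (fderiv ℝ f) 0 y x := by
    intro x y
    have h2 : IsSymmSndFDerivAt ℝ f 0 :=
      ((hf 0 (by simp)).of_le (m := 2) (WithTop.coe_le_coe.2 (le_top : (2 : ℕ∞) ≤ ⊤))).isSymmSndFDerivAt (by simp)
    exact h2 x y
  have hq : ∀ x : ℂ, HasFDerivAt (fun y : ℂ => (2 : ℝ)⁻¹ • fderiv ℝ (fderiv ℝ f) 0 y y) (fderiv ℝ (fderiv ℝ f) 0 x) x := by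
    intro x
    have h1 : HasFDerivAt (fun y : ℂ => fderiv ℝ (fderiv ℝ f) 0 y) (fderiv ℝ (fderiv ℝ f) 0) x := (fderiv ℝ (fderiv ℝ f) 0).hasFDerivAt
    have h2 := (h1.clm_apply (hasFDerivAt_id x)).const_smul (2 : ℝ)⁻¹
    refine h2.congr_fderiv ?_
    refine ContinuousLinearMap.ext fun y => ?_
    simp only [ContinuousLinearMap.smul_apply, ContinuousLinearMap.add_apply, ContinuousLinearMap.comp_apply, ContinuousLinearMap.flip_apply,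
      ContinuousLinearMap.coe_id', id_eq]
    rw [hsym y x, ← two_smul ℝ, smul_smul]
    norm_num
  have h3 := hconv.norm_image_sub_le_of_norm_hasFDerivWithin_le (𝕜 := ℝ) (f := fun x => f x - fderiv ℝ f 0 x - (2 : ℝ)⁻¹ • fderiv ℝ (fderiv ℝ f) 0 x x)
      (f' := fun x => fderiv ℝ f x - fderiv ℝ f 0 - fderiv ℝ (fderiv ℝ f) 0 x) (C := b * ‖v‖ ^ 2)
      (fun x hx => ((((hf x ((hball x hx).trans hv)).differentiableAt (by simp)).hasFDerivAt.sub (fderiv ℝ f 0).hasFDerivAt).sub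
        (hq x)).hasFDerivWithinAt) (fun x hx => s1 x hx) h0 (y := v) (by simp)
  rw [sub_zero, map_zero, map_zero, smul_zero, sub_zero, sub_zero] at h3
  have h4 : f v - (f 0 + fderiv ℝ f 0 v + (2 : ℝ)⁻¹ • fderiv ℝ (fderiv ℝ f) 0 v v) =
      f v - fderiv ℝ f 0 v - (2 : ℝ)⁻¹ • fderiv ℝ (fderiv ℝ f) 0 v v - f 0 := by abel
  rw [h4]
  exact h3.trans (le_of_eq (by ring))

/-- a smooth function which is `O(‖v‖³)` has derivatives of order `k` which are `O(‖v‖^(3-k))` -/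
theorem VR3_van {F : Type} [NormedAddCommGroup F] [NormedSpace ℝ F] (f : ℂ → F) (b c : ℝ) (hf : ∀ v : ℂ, ‖v‖ ≤ 1 → ContDiffAt ℝ ∞ f v)
    (hb : ∀ v : ℂ, ‖v‖ ≤ 1 → ‖iteratedFDeriv ℝ 3 f v‖ ≤ b) (hc : ∀ v : ℂ, ‖v‖ ≤ 1 → ‖f v‖ ≤ c * ‖v‖ ^ 3) (v : ℂ) (hv : ‖v‖ ≤ 1) :
    ∀ k ≤ 3, ‖iteratedFDeriv ℝ k f v‖ ≤ b * ‖v‖ ^ (3 - k) := by
  have hb0 : 0 ≤ b := (norm_nonneg _).trans (hb 0 (by simp))
  have h01 : ‖(0 : ℂ)‖ ≤ 1 := by simp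
  have hf1 : ∀ w : ℂ, ‖w‖ ≤ 1 → ContDiffAt ℝ ∞ (fderiv ℝ f) w := fun w hw => (hf w hw).fderiv_right (m := ∞) (by simp)
  have hf2 : ∀ w : ℂ, ‖w‖ ≤ 1 → ContDiffAt ℝ ∞ (fderiv ℝ (fderiv ℝ f)) w := fun w hw => (hf1 w hw).fderiv_right (m := ∞) (by simp)
  have hc0 : 0 ≤ c := by
    have h1 := (norm_nonneg _).trans (hc 1 (by simp))
    simpa using h1
  have e0 : f 0 = 0 := by
    have h1 := hc 0 h01
    rw [norm_zero] at h1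
    norm_num at h1
    exact h1
  have e1 : fderiv ℝ f 0 = 0 := by
    have h1 : HasFDerivAt f (0 : ℂ →L[ℝ] F) 0 := by
      rw [hasFDerivAt_iff_isLittleO_nhds_zero]
      refine Asymptotics.isLittleO_iff.2 fun ε hε => ?_
      have h2 : Metric.ball (0 : ℂ) (min 1 (ε / (c + 1))) ∈ 𝓝 (0 : ℂ) := Metric.ball_mem_nhds 0 (lt_min one_pos (by positivity))
      filter_upwards [h2] with w hw
      rw [mem_ball_zero_iff, lt_min_iff] at hw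
      rw [zero_add, e0, sub_zero, ContinuousLinearMap.zero_apply, sub_zero]
      refine (hc w hw.1.le).trans ?_
      have h3 : c * ‖w‖ ≤ ε := by
        have h4 : ‖w‖ * (c + 1) ≤ ε := (le_div_iff₀ (by positivity)).1 hw.2.le
        nlinarith [norm_nonneg w]
      have h5 : ‖w‖ ^ 3 ≤ ‖w‖ * ‖w‖ := by
        have := norm_nonneg w
        calc ‖w‖ ^ 3 = ‖w‖ * ‖w‖ * ‖w‖ := by ring
          _ ≤ ‖w‖ * ‖w‖ * 1 := mul_le_mul_of_nonneg_left hw.1.le (by positivity)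
          _ = ‖w‖ * ‖w‖ := mul_one _
      calc c * ‖w‖ ^ 3 ≤ c * (‖w‖ * ‖w‖) := mul_le_mul_of_nonneg_left h5 hc0
        _ = c * ‖w‖ * ‖w‖ := by ring
        _ ≤ ε * ‖w‖ := mul_le_mul_of_nonneg_right h3 (norm_nonneg w)
    exact h1.fderiv
  have hsym : ∀ x y : ℂ, fderiv ℝ (fderiv ℝ f) 0 x y = fderiv ℝ (fderiv ℝ f) 0 y x := by
    intro x y
    have h2 : IsSymmSndFDerivAt ℝ f 0 :=
      ((hf 0 (by simp)).of_le (m := 2) (WithTop.coe_le_coe.2 (le_top : (2 : ℕ∞) ≤ ⊤))).isSymmSndFDerivAt (by simp)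
    exact h2 x y
  have hdiag : ∀ u : ℂ, fderiv ℝ (fderiv ℝ f) 0 u u = 0 := by
    intro u
    by_contra hne
    have hpos : 0 < ‖fderiv ℝ (fderiv ℝ f) 0 u u‖ := norm_pos_iff.2 hne
    set d := ‖fderiv ℝ (fderiv ℝ f) 0 u u‖ with hd
    -- the estimate for `s u`
    have h1 : ∀ s : ℝ, 0 < s → s * ‖u‖ ≤ 1 → d ≤ 2 * (b + c) * ‖u‖ ^ 3 * s := by
      intro s hs hsu
      have hn : ‖(s : ℂ) * u‖ = s * ‖u‖ := by rw [norm_mul, Complex.norm_real, Real.norm_eq_abs, abs_of_pos hs]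
      have h2 := VR3_taylor f b hf hb ((s : ℂ) * u) (by rw [hn]; exact hsu)
      have h3 := hc ((s : ℂ) * u) (by rw [hn]; exact hsu)
      rw [e0, e1, ContinuousLinearMap.zero_apply, zero_add, zero_add, hn] at h2
      rw [hn] at h3
      have h4 : fderiv ℝ (fderiv ℝ f) 0 ((s : ℂ) * u) ((s : ℂ) * u) = (s * s) • fderiv ℝ (fderiv ℝ f) 0 u u := by
        have h5 : (s : ℂ) * u = s • u := (Complex.real_smul).symm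
        rw [h5, map_smul, map_smul, ContinuousLinearMap.smul_apply, smul_smul]
      rw [h4] at h2
      have h6 : ‖(2 : ℝ)⁻¹ • (s * s) • fderiv ℝ (fderiv ℝ f) 0 u u‖ ≤ b * (s * ‖u‖) ^ 3 + c * (s * ‖u‖) ^ 3 := by
        have h7 : (2 : ℝ)⁻¹ • (s * s) • fderiv ℝ (fderiv ℝ f) 0 u u = f ((s : ℂ) * u) - (f ((s : ℂ) * u) - (2 : ℝ)⁻¹ • (s * s) • fderiv ℝ (fderiv ℝ f) 0 u u) := by abel
        rw [h7]
        refine (norm_sub_le _ _).trans ?_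
        linarith
      rw [norm_smul, norm_smul, ← hd, Real.norm_eq_abs, Real.norm_eq_abs, abs_of_pos (by positivity : (0 : ℝ) < 2⁻¹), abs_of_pos (by positivity : 0 < s * s)] at h6
      have h8 : s * s * d ≤ s * s * (2 * (b + c) * ‖u‖ ^ 3 * s) := by nlinarith
      exact le_of_mul_le_mul_left h8 (by positivity)
    set L := 2 * (b + c) * ‖u‖ ^ 3 + 1 with hL
    have hL1 : 0 < L := by positivity
    have h2 := h1 (min (1 / (‖u‖ + 1)) (d / (2 * L))) (lt_min (by positivity) (by positivity)) (by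
      have h3 : min (1 / (‖u‖ + 1)) (d / (2 * L)) ≤ 1 / (‖u‖ + 1) := min_le_left _ _
      calc min (1 / (‖u‖ + 1)) (d / (2 * L)) * ‖u‖ ≤ 1 / (‖u‖ + 1) * ‖u‖ := mul_le_mul_of_nonneg_right h3 (norm_nonneg u)
        _ ≤ 1 := by
          rw [one_div, inv_mul_le_iff₀ (by positivity)]
          linarith)
    have h3 : min (1 / (‖u‖ + 1)) (d / (2 * L)) ≤ d / (2 * L) := min_le_right _ _
    have h4 : 2 * (b + c) * ‖u‖ ^ 3 * min (1 / (‖u‖ + 1)) (d / (2 * L)) ≤ L * (d / (2 * L)) := by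
      refine mul_le_mul ?_ h3 (le_min (by positivity) (by positivity)) hL1.le
      rw [hL]
      linarith
    have h5 : L * (d / (2 * L)) = d / 2 := by field_simp
    linarith
  have e2 : fderiv ℝ (fderiv ℝ f) 0 = 0 := by
    refine ContinuousLinearMap.ext fun x => ContinuousLinearMap.ext fun y => ?_
    have h1 := hdiag (x + y)
    simp only [map_add, ContinuousLinearMap.add_apply] at h1
    rw [hdiag x, hdiag y, hsym y x, zero_add, add_zero, ← two_smul ℝ] at h1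
    have h2 := (smul_eq_zero.1 h1).resolve_left (by norm_num)
    rw [h2]
    rfl
  have b2 : ∀ x : ℂ, ‖x‖ ≤ 1 → ‖iteratedFDeriv ℝ 2 f x‖ ≤ b * ‖x‖ := by
    intro x hx
    have h1 := VUB_mv (fderiv ℝ (fderiv ℝ f)) 1 b zero_le_one (fun x hx => (hf2 x hx).differentiableAt (by simp))
      (fun x hx => by rw [norm_iteratedFDeriv_fderiv, norm_iteratedFDeriv_fderiv]; exact hb x hx) x hx
    rw [e2, sub_zero, ← norm_iteratedFDeriv_one, norm_iteratedFDeriv_fderiv] at h1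
    exact h1
  have b1 : ∀ x : ℂ, ‖x‖ ≤ 1 → ‖iteratedFDeriv ℝ 1 f x‖ ≤ b * ‖x‖ ^ 2 := by
    intro x hx
    have h1 := VUB_mv (fderiv ℝ f) ‖x‖ (b * ‖x‖) (norm_nonneg x) (fun y hy => (hf1 y (hy.trans hx)).differentiableAt (by simp))
      (fun y hy => by
        rw [norm_iteratedFDeriv_fderiv]
        exact (b2 y (hy.trans hx)).trans (mul_le_mul_of_nonneg_left hy hb0)) x le_rfl
    rw [e1, sub_zero, ← norm_iteratedFDeriv_one] at h1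
    exact h1.trans (le_of_eq (by ring))
  have b0 : ∀ x : ℂ, ‖x‖ ≤ 1 → ‖iteratedFDeriv ℝ 0 f x‖ ≤ b * ‖x‖ ^ 3 := by
    intro x hx
    have h1 := VUB_mv f ‖x‖ (b * ‖x‖ ^ 2) (norm_nonneg x) (fun y hy => (hf y (hy.trans hx)).differentiableAt (by simp))
      (fun y hy => (b1 y (hy.trans hx)).trans (mul_le_mul_of_nonneg_left (pow_le_pow_left₀ (norm_nonneg y) hy 2) hb0)) x le_rfl
    rw [e0, sub_zero, ← norm_iteratedFDeriv_zero (𝕜 := ℝ)] at h1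
    exact h1.trans (le_of_eq (by ring))
  intro k hk
  interval_cases k
  · exact b0 v hv
  · exact b1 v hv
  · have h1 := b2 v hv
    rw [show 3 - 2 = 1 from rfl, pow_one]
    exact h1
  · rw [Nat.sub_self, pow_zero, mul_one]
    exact hb v hv

/-! ## Bounds -/

theorem VR3_nat (k : ℕ) : ((k : ℕ) : WithTop ℕ∞) ≤ ((⊤ : ℕ∞) : WithTop ℕ∞) := WithTop.coe_le_coe.2 (le_top : (k : ℕ∞) ≤ ⊤)

/-- bounds for the derivatives of a smooth function on the unit ball -/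
theorem VR3_cpt (f : ℂ → ℂ) (hf : ContDiff ℝ ∞ f) (K : ℕ) :
    ∃ A : ℝ, 0 ≤ A ∧ ∀ k ≤ K, ∀ v : ℂ, ‖v‖ ≤ 1 → ‖iteratedFDeriv ℝ k f v‖ ≤ A := by
  have h1 : ∀ k : ℕ, ∃ A : ℝ, ∀ v ∈ Metric.closedBall (0 : ℂ) 1, ‖iteratedFDeriv ℝ k f v‖ ≤ A := fun k =>
    (isCompact_closedBall (0 : ℂ) 1).exists_bound_of_continuousOn (hf.continuous_iteratedFDeriv (VR3_nat k)).continuousOn
  choose A hA using h1
  refine ⟨∑ k ∈ Finset.range (K + 1), |A k|, Finset.sum_nonneg fun _ _ => abs_nonneg _, fun k hk v hv => ?_⟩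
  refine ((hA k v (by simpa using hv)).trans (le_abs_self _)).trans ?_
  exact Finset.single_le_sum (f := fun k => |A k|) (fun _ _ => abs_nonneg _) (Finset.mem_range.2 (by omega))

theorem VR3_Ecd (X Y : ℂ → ℂ) (hX : ContDiff ℝ ∞ X) (hY : ContDiff ℝ ∞ Y) (j : Fin 13) : ContDiff ℝ ∞ (fun v => VR3_E (X v) (Y v) j) := by
  fin_cases j
  · show ContDiff ℝ ∞ fun v => -(1 / 4) * (X v ^ 2 - Y v ^ 2) * X v + 1 / 2 * (X v ^ 2 + Y v ^ 2) * X v - 1 / 16 * (X v ^ 2 + Y v ^ 2) ^ 2 * X v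
    fun_prop
  · show ContDiff ℝ ∞ fun v => -(1 / 4) * (X v ^ 2 - Y v ^ 2) * Y v - 1 / 2 * X v ^ 2 * Y v + 1 / 2 * (X v ^ 2 + Y v ^ 2) * Y v - 1 / 16 * (X v ^ 2 + Y v ^ 2) ^ 2 * Y v
    fun_prop
  · show ContDiff ℝ ∞ fun v => -(1 / 2) * X v * Y v ^ 2
    fun_prop
  · show ContDiff ℝ ∞ fun v => 1 / 4 * (X v ^ 2 + Y v ^ 2) * X v ^ 2 - 1 / 32 * (X v ^ 2 + Y v ^ 2) ^ 2 * X v ^ 2
    fun_prop
  · show ContDiff ℝ ∞ fun v => 1 / 2 * (X v ^ 2 + Y v ^ 2) * X v * Y v - 1 / 16 * (X v ^ 2 + Y v ^ 2) ^ 2 * X v * Y v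
    fun_prop
  · show ContDiff ℝ ∞ fun v => 1 / 4 * (X v ^ 2 + Y v ^ 2) * Y v ^ 2 - 1 / 32 * (X v ^ 2 + Y v ^ 2) ^ 2 * Y v ^ 2
    fun_prop
  · show ContDiff ℝ ∞ fun v => -(1 / 32) * (X v ^ 2 + Y v ^ 2) ^ 2
    fun_prop
  · show ContDiff ℝ ∞ fun v => (-(1 / 2) : ℂ)
    fun_prop
  · show ContDiff ℝ ∞ fun v => -(1 / 2) * X v
    fun_prop
  · show ContDiff ℝ ∞ fun v => -(1 / 2) * Y v
    fun_prop
  · show ContDiff ℝ ∞ fun v => -(1 / 4) * X v ^ 2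
    fun_prop
  · show ContDiff ℝ ∞ fun v => -(1 / 2) * X v * Y v
    fun_prop
  · show ContDiff ℝ ∞ fun v => -(1 / 4) * Y v ^ 2
    fun_prop

theorem VR3_X : ContDiff ℝ ∞ (fun v : ℂ => ((v.re : ℝ) : ℂ)) := Complex.ofRealCLM.contDiff.comp Complex.reCLM.contDiff

theorem VR3_Y : ContDiff ℝ ∞ (fun v : ℂ => ((v.im : ℝ) : ℂ)) := Complex.ofRealCLM.contDiff.comp Complex.imCLM.contDiff

theorem VR3_sum (K : ℕ) : ∃ A : ℝ, 0 ≤ A ∧ ∀ (c : Fin 13 → ℂ) (w : ℝ), (∀ j, ‖c j‖ ≤ w) →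
    ContDiff ℝ ∞ (fun v : ℂ => ∑ j, c j * VR3_E (v.re : ℂ) (v.im : ℂ) j) ∧
    ∀ k ≤ K, ∀ v : ℂ, ‖v‖ ≤ 1 → ‖iteratedFDeriv ℝ k (fun v : ℂ => ∑ j, c j * VR3_E (v.re : ℂ) (v.im : ℂ) j) v‖ ≤ A * w := by
  have hE : ∀ j, ContDiff ℝ ∞ (fun v : ℂ => VR3_E (v.re : ℂ) (v.im : ℂ) j) := fun j => VR3_Ecd _ _ VR3_X VR3_Y j
  choose A hA0 hA using fun j => VR3_cpt _ (hE j) K
  refine ⟨∑ j, A j, Finset.sum_nonneg fun j _ => hA0 j, fun c w hc => ?_⟩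
  have hcE : ∀ j, ContDiff ℝ ∞ (fun v : ℂ => c j * VR3_E (v.re : ℂ) (v.im : ℂ) j) := fun j => contDiff_const.mul (hE j)
  refine ⟨ContDiff.sum fun j _ => hcE j, fun k hk v hv => ?_⟩
  rw [iteratedFDeriv_fun_sum_apply fun j _ => ((hcE j).of_le (VR3_nat k)).contDiffAt, Finset.sum_mul]
  refine (norm_sum_le _ _).trans (Finset.sum_le_sum fun j _ => ?_)
  have h1 := (ContinuousLinearMap.mul ℝ ℂ (c j)).norm_iteratedFDeriv_comp_left (x := v) ((hE j).of_le (VR3_nat k)).contDiffAt (le_refl (k : WithTop ℕ∞))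
  rw [ContinuousLinearMap.opNorm_mul_apply] at h1
  refine h1.trans ?_
  rw [mul_comm (A j)]
  exact mul_le_mul (hc j) (hA j k hk v hv) (norm_nonneg _) ((norm_nonneg _).trans (hc j))

/-- cubic functions -/
theorem VR3_cubic (p q r s : ℂ → ℂ) (hp : Continuous p) (hq : Continuous q) (hr : Continuous r) (hs : Continuous s) :
    ∃ c : ℝ, ∀ v : ℂ, ‖v‖ ≤ 1 → ‖(v.re : ℂ) ^ 3 * p v + (v.re : ℂ) ^ 2 * (v.im : ℂ) * q v + (v.re : ℂ) * (v.im : ℂ) ^ 2 * r v + (v.im : ℂ) ^ 3 * s v‖ ≤ c * ‖v‖ ^ 3 := by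
  obtain ⟨c, hc⟩ := (isCompact_closedBall (0 : ℂ) 1).exists_bound_of_continuousOn
    (f := fun v : ℂ => ‖p v‖ + ‖q v‖ + ‖r v‖ + ‖s v‖) (by fun_prop)
  refine ⟨c, fun v hv => ?_⟩
  have h1 := hc v (by simpa using hv)
  rw [Real.norm_eq_abs, abs_of_nonneg (by positivity)] at h1
  have hx : ‖(v.re : ℂ)‖ ≤ ‖v‖ := by rw [Complex.norm_real]; exact Complex.abs_re_le_norm v
  have hy : ‖(v.im : ℂ)‖ ≤ ‖v‖ := by rw [Complex.norm_real]; exact Complex.abs_im_le_norm v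
  have hn := norm_nonneg v
  have a1 : ‖(v.re : ℂ) ^ 3‖ ≤ ‖v‖ ^ 3 := by
    rw [norm_pow]
    exact pow_le_pow_left₀ (norm_nonneg _) hx 3
  have a2 : ‖(v.re : ℂ) ^ 2 * (v.im : ℂ)‖ ≤ ‖v‖ ^ 3 := by
    rw [norm_mul, norm_pow]
    calc ‖(v.re : ℂ)‖ ^ 2 * ‖(v.im : ℂ)‖ ≤ ‖v‖ ^ 2 * ‖v‖ := mul_le_mul (pow_le_pow_left₀ (norm_nonneg _) hx 2) hy (norm_nonneg _) (by positivity)
      _ = ‖v‖ ^ 3 := by ring
  have a3 : ‖(v.re : ℂ) * (v.im : ℂ) ^ 2‖ ≤ ‖v‖ ^ 3 := by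
    rw [norm_mul, norm_pow]
    calc ‖(v.re : ℂ)‖ * ‖(v.im : ℂ)‖ ^ 2 ≤ ‖v‖ * ‖v‖ ^ 2 := mul_le_mul hx (pow_le_pow_left₀ (norm_nonneg _) hy 2) (by positivity) (by positivity)
      _ = ‖v‖ ^ 3 := by ring
  have a4 : ‖(v.im : ℂ) ^ 3‖ ≤ ‖v‖ ^ 3 := by
    rw [norm_pow]
    exact pow_le_pow_left₀ (norm_nonneg _) hy 3
  refine (norm_add₄_le).trans ?_
  rw [norm_mul _ (p v), norm_mul _ (q v), norm_mul _ (r v), norm_mul _ (s v)]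
  have b1 := mul_le_mul_of_nonneg_right a1 (norm_nonneg (p v))
  have b2 := mul_le_mul_of_nonneg_right a2 (norm_nonneg (q v))
  have b3 := mul_le_mul_of_nonneg_right a3 (norm_nonneg (r v))
  have b4 := mul_le_mul_of_nonneg_right a4 (norm_nonneg (s v))
  have b5 : (‖p v‖ + ‖q v‖ + ‖r v‖ + ‖s v‖) * ‖v‖ ^ 3 ≤ c * ‖v‖ ^ 3 := mul_le_mul_of_nonneg_right h1 (by positivity)
  linarith

/-- the third order bound for the whole remainder (constants depend on everything) -/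
theorem VR3_O3 (c : Fin 13 → ℂ) (U : ℍ → ℝ) (g : SL(2, ℝ)) (b : ℝ) (h7 : c 7 = (U (g • I) : ℂ)) (h8 : c 8 = (n1 U g : ℂ)) (h9 : c 9 = (n2 U g : ℂ))
    (h10 : c 10 = (hess U g 0 0 : ℂ)) (h11 : c 11 = (hess U g 0 1 : ℂ)) (h12 : c 12 = (hess U g 1 1 : ℂ))
    (hT : ∀ v : ℂ, ‖v‖ ≤ 1 → |Ug U g v - (U (g • I) + n1 U g * v.re + n2 U g * v.im +
      (hess U g 0 0 * v.re ^ 2 + 2 * hess U g 0 1 * v.re * v.im + hess U g 1 1 * v.im ^ 2) / 2)| ≤ b * ‖v‖ ^ 3) :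
    ∃ c' : ℝ, ∀ v : ℂ, ‖v‖ ≤ 1 → ‖(∑ j, c j * VR3_E (v.re : ℂ) (v.im : ℂ) j) + ((Ug U g v / 2 : ℝ) : ℂ)‖ ≤ c' * ‖v‖ ^ 3 := by
  have hX : Continuous fun v : ℂ => (v.re : ℂ) := VR3_X.continuous
  have hY : Continuous fun v : ℂ => (v.im : ℂ) := VR3_Y.continuous
  obtain ⟨c', hc'⟩ := VR3_cubic
    (fun v => c 0 * (1 / 4 - ((v.re : ℂ) ^ 2 + (v.im : ℂ) ^ 2) / 16) + c 3 * (1 / 4 * (v.re : ℂ) - ((v.re : ℂ) ^ 2 + (v.im : ℂ) ^ 2) * (v.re : ℂ) / 32) +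
      c 4 * (1 / 2 * (v.im : ℂ) - ((v.re : ℂ) ^ 2 + (v.im : ℂ) ^ 2) * (v.im : ℂ) / 16) - c 6 * (v.re : ℂ) / 32)
    (fun v => c 1 * (-(1 / 4) - ((v.re : ℂ) ^ 2 + (v.im : ℂ) ^ 2) / 16) + c 3 * (1 / 4 * (v.im : ℂ) - ((v.re : ℂ) ^ 2 + (v.im : ℂ) ^ 2) * (v.im : ℂ) / 32) -
      c 6 * (2 * (v.im : ℂ)) / 32)
    (fun v => c 0 * (3 / 4 - ((v.re : ℂ) ^ 2 + (v.im : ℂ) ^ 2) / 16) - c 2 / 2 + c 4 * (1 / 2 * (v.im : ℂ) - ((v.re : ℂ) ^ 2 + (v.im : ℂ) ^ 2) * (v.im : ℂ) / 16) +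
      c 5 * (1 / 4 * (v.re : ℂ) - ((v.re : ℂ) ^ 2 + (v.im : ℂ) ^ 2) * (v.re : ℂ) / 32))
    (fun v => c 1 * (3 / 4 - ((v.re : ℂ) ^ 2 + (v.im : ℂ) ^ 2) / 16) + c 5 * (1 / 4 * (v.im : ℂ) - ((v.re : ℂ) ^ 2 + (v.im : ℂ) ^ 2) * (v.im : ℂ) / 32) -
      c 6 * (v.im : ℂ) / 32)
    (by fun_prop) (by fun_prop) (by fun_prop) (by fun_prop)
  refine ⟨c' + b / 2, fun v hv => ?_⟩
  have h1 := hc' v hv
  have h2 := hT v hv
  have h3 : (∑ j, c j * VR3_E (v.re : ℂ) (v.im : ℂ) j) + ((Ug U g v / 2 : ℝ) : ℂ) =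
      ((v.re : ℂ) ^ 3 * (c 0 * (1 / 4 - ((v.re : ℂ) ^ 2 + (v.im : ℂ) ^ 2) / 16) + c 3 * (1 / 4 * (v.re : ℂ) - ((v.re : ℂ) ^ 2 + (v.im : ℂ) ^ 2) * (v.re : ℂ) / 32) +
        c 4 * (1 / 2 * (v.im : ℂ) - ((v.re : ℂ) ^ 2 + (v.im : ℂ) ^ 2) * (v.im : ℂ) / 16) - c 6 * (v.re : ℂ) / 32) +
      (v.re : ℂ) ^ 2 * (v.im : ℂ) * (c 1 * (-(1 / 4) - ((v.re : ℂ) ^ 2 + (v.im : ℂ) ^ 2) / 16) + c 3 * (1 / 4 * (v.im : ℂ) - ((v.re : ℂ) ^ 2 + (v.im : ℂ) ^ 2) * (v.im : ℂ) / 32) -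
        c 6 * (2 * (v.im : ℂ)) / 32) +
      (v.re : ℂ) * (v.im : ℂ) ^ 2 * (c 0 * (3 / 4 - ((v.re : ℂ) ^ 2 + (v.im : ℂ) ^ 2) / 16) - c 2 / 2 + c 4 * (1 / 2 * (v.im : ℂ) - ((v.re : ℂ) ^ 2 + (v.im : ℂ) ^ 2) * (v.im : ℂ) / 16) +
        c 5 * (1 / 4 * (v.re : ℂ) - ((v.re : ℂ) ^ 2 + (v.im : ℂ) ^ 2) * (v.re : ℂ) / 32)) +
      (v.im : ℂ) ^ 3 * (c 1 * (3 / 4 - ((v.re : ℂ) ^ 2 + (v.im : ℂ) ^ 2) / 16) + c 5 * (1 / 4 * (v.im : ℂ) - ((v.re : ℂ) ^ 2 + (v.im : ℂ) ^ 2) * (v.im : ℂ) / 32) -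
        c 6 * (v.im : ℂ) / 32)) +
      (((Ug U g v - (U (g • I) + n1 U g * v.re + n2 U g * v.im +
        (hess U g 0 0 * v.re ^ 2 + 2 * hess U g 0 1 * v.re * v.im + hess U g 1 1 * v.im ^ 2) / 2)) / 2 : ℝ) : ℂ) := by
    have hs : (∑ j, c j * VR3_E (v.re : ℂ) (v.im : ℂ) j) = c 0 * VR3_E (v.re : ℂ) (v.im : ℂ) 0 + c 1 * VR3_E (v.re : ℂ) (v.im : ℂ) 1 +
        c 2 * VR3_E (v.re : ℂ) (v.im : ℂ) 2 + c 3 * VR3_E (v.re : ℂ) (v.im : ℂ) 3 + c 4 * VR3_E (v.re : ℂ) (v.im : ℂ) 4 + c 5 * VR3_E (v.re : ℂ) (v.im : ℂ) 5 +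
        c 6 * VR3_E (v.re : ℂ) (v.im : ℂ) 6 + c 7 * VR3_E (v.re : ℂ) (v.im : ℂ) 7 + c 8 * VR3_E (v.re : ℂ) (v.im : ℂ) 8 + c 9 * VR3_E (v.re : ℂ) (v.im : ℂ) 9 +
        c 10 * VR3_E (v.re : ℂ) (v.im : ℂ) 10 + c 11 * VR3_E (v.re : ℂ) (v.im : ℂ) 11 + c 12 * VR3_E (v.re : ℂ) (v.im : ℂ) 12 := by
      rw [Fin.sum_univ_castSucc, Fin.sum_univ_castSucc, Fin.sum_univ_castSucc, Fin.sum_univ_castSucc, Fin.sum_univ_castSucc, Fin.sum_univ_eight]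
      rfl
    rw [hs, h7, h8, h9, h10, h11, h12]
    show c 0 * (-(1 / 4) * ((v.re : ℂ) ^ 2 - (v.im : ℂ) ^ 2) * (v.re : ℂ) + 1 / 2 * ((v.re : ℂ) ^ 2 + (v.im : ℂ) ^ 2) * (v.re : ℂ) - 1 / 16 * ((v.re : ℂ) ^ 2 + (v.im : ℂ) ^ 2) ^ 2 * (v.re : ℂ)) +
      c 1 * (-(1 / 4) * ((v.re : ℂ) ^ 2 - (v.im : ℂ) ^ 2) * (v.im : ℂ) - 1 / 2 * (v.re : ℂ) ^ 2 * (v.im : ℂ) + 1 / 2 * ((v.re : ℂ) ^ 2 + (v.im : ℂ) ^ 2) * (v.im : ℂ) - 1 / 16 * ((v.re : ℂ) ^ 2 + (v.im : ℂ) ^ 2) ^ 2 * (v.im : ℂ)) +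
      c 2 * (-(1 / 2) * (v.re : ℂ) * (v.im : ℂ) ^ 2) +
      c 3 * (1 / 4 * ((v.re : ℂ) ^ 2 + (v.im : ℂ) ^ 2) * (v.re : ℂ) ^ 2 - 1 / 32 * ((v.re : ℂ) ^ 2 + (v.im : ℂ) ^ 2) ^ 2 * (v.re : ℂ) ^ 2) +
      c 4 * (1 / 2 * ((v.re : ℂ) ^ 2 + (v.im : ℂ) ^ 2) * (v.re : ℂ) * (v.im : ℂ) - 1 / 16 * ((v.re : ℂ) ^ 2 + (v.im : ℂ) ^ 2) ^ 2 * (v.re : ℂ) * (v.im : ℂ)) +
      c 5 * (1 / 4 * ((v.re : ℂ) ^ 2 + (v.im : ℂ) ^ 2) * (v.im : ℂ) ^ 2 - 1 / 32 * ((v.re : ℂ) ^ 2 + (v.im : ℂ) ^ 2) ^ 2 * (v.im : ℂ) ^ 2) +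
      c 6 * (-(1 / 32) * ((v.re : ℂ) ^ 2 + (v.im : ℂ) ^ 2) ^ 2) + (U (g • I) : ℂ) * (-(1 / 2)) + (n1 U g : ℂ) * (-(1 / 2) * (v.re : ℂ)) + (n2 U g : ℂ) * (-(1 / 2) * (v.im : ℂ)) +
      (hess U g 0 0 : ℂ) * (-(1 / 4) * (v.re : ℂ) ^ 2) + (hess U g 0 1 : ℂ) * (-(1 / 2) * (v.re : ℂ) * (v.im : ℂ)) + (hess U g 1 1 : ℂ) * (-(1 / 4) * (v.im : ℂ) ^ 2) +
      ((Ug U g v / 2 : ℝ) : ℂ) = _
    push_cast
    ring
  rw [h3]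
  refine (norm_add_le _ _).trans ?_
  have h4 : ‖(((Ug U g v - (U (g • I) + n1 U g * v.re + n2 U g * v.im +
      (hess U g 0 0 * v.re ^ 2 + 2 * hess U g 0 1 * v.re * v.im + hess U g 1 1 * v.im ^ 2) / 2)) / 2 : ℝ) : ℂ)‖ ≤ b / 2 * ‖v‖ ^ 3 := by
    rw [Complex.norm_real, Real.norm_eq_abs, abs_div, abs_of_pos (by norm_num : (0 : ℝ) < 2)]
    linarith
  calc _ ≤ c' * ‖v‖ ^ 3 + b / 2 * ‖v‖ ^ 3 := add_le_add h1 h4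
    _ = (c' + b / 2) * ‖v‖ ^ 3 := by ring

theorem VR3_coef (ρ a m b u n n' h00 h01 h11 : ℂ) (s : ℝ) (hs : 1 ≤ s) (hρ : ‖ρ‖ ≤ 6 / 5) (ha : ‖a‖ ≤ s) (hm : ‖m‖ ≤ s) (hb : ‖b‖ ≤ s)
    (hu : ‖u‖ ≤ 11 / 10) (hn : ‖n‖ ≤ 1 / 10) (hn' : ‖n'‖ ≤ 1 / 10) (h1 : ‖h00‖ ≤ 1 / 10) (h2 : ‖h01‖ ≤ 1 / 10) (h3 : ‖h11‖ ≤ 1 / 10) (j : Fin 13) :
    ‖VR3_c ρ a m b u n n' h00 h01 h11 j‖ ≤ 2 * s ^ 2 := by
  have hs0 : 0 ≤ s := zero_le_one.trans hs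
  have hs2 : 1 ≤ s ^ 2 := one_le_pow₀ hs
  have hs3 : s ≤ s ^ 2 := by nlinarith
  have e1 : ∀ x : ℂ, ‖x‖ ≤ s → ‖ρ * x‖ ≤ 2 * s ^ 2 := by
    intro x hx
    rw [norm_mul]
    calc ‖ρ‖ * ‖x‖ ≤ 6 / 5 * s := mul_le_mul hρ hx (norm_nonneg _) (by norm_num)
      _ ≤ 2 * s ^ 2 := by linarith
  have e2 : ∀ x y : ℂ, ‖x‖ ≤ s → ‖y‖ ≤ s → ‖x ^ 2 + y ^ 2‖ ≤ 2 * s ^ 2 := by
    intro x y hx hy
    refine (norm_add_le _ _).trans ?_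
    rw [norm_pow, norm_pow]
    have := pow_le_pow_left₀ (norm_nonneg x) hx 2
    have := pow_le_pow_left₀ (norm_nonneg y) hy 2
    linarith
  have e3 : ‖m * (a + b)‖ ≤ 2 * s ^ 2 := by
    rw [norm_mul]
    have h4 : ‖a + b‖ ≤ 2 * s := (norm_add_le _ _).trans (by linarith)
    calc ‖m‖ * ‖a + b‖ ≤ s * (2 * s) := mul_le_mul hm h4 (norm_nonneg _) hs0
      _ = 2 * s ^ 2 := by ring
  have e4 : ‖ρ ^ 2‖ ≤ 2 * s ^ 2 := by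
    rw [norm_pow]
    have := pow_le_pow_left₀ (norm_nonneg ρ) hρ 2
    norm_num at this
    linarith
  fin_cases j
  · exact e1 a ha
  · exact e1 m hm
  · exact e1 b hb
  · exact e2 a m ha hm
  · exact e3
  · exact e2 m b hm hb
  · exact e4
  · exact hu.trans (by linarith)
  · exact hn.trans (by linarith)
  · exact hn'.trans (by linarith)
  · exact h1.trans (by linarith)
  · exact h2.trans (by linarith)
  · exact h3.trans (by linarith)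

theorem VR3_proof (hVCD : VCD_stmt) (hVUB : VUB_stmt) (hVYA : VYA_stmt) (hVYB : VYB_stmt) : VR3_stmt := by
  obtain ⟨C0, hC0, hY⟩ := hVYB
  refine ⟨2 * C0, by linarith, fun K B => ?_⟩
  obtain ⟨A, hA0, hA⟩ := VR3_sum (max K 3)
  set SB := ∑ k ∈ Finset.range (max K 3 + 1), |B k| with hSB
  have hSB0 : 0 ≤ SB := Finset.sum_nonneg fun _ _ => abs_nonneg _
  have hBk : ∀ k ≤ max K 3, |B k| ≤ SB := fun k hk =>
    Finset.single_le_sum (f := fun k => |B k|) (fun _ _ => abs_nonneg _) (Finset.mem_range.2 (by omega))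
  refine ⟨A * (2 * C0 ^ 2) + SB + 1, ?_, fun δ Γ D p t hD hδ hE v0 hv0 => ?_⟩
  · have : 0 ≤ A * (2 * C0 ^ 2) := by positivity
    linarith
  obtain ⟨-, hU1, hU2, -, -, hU5, hU6⟩ := hVUB Γ δ B D.U hD.pot hδ
  set g := D.fl p.2 t p.1 with hg
  obtain ⟨hu, hn1, hn2, hh, hsym⟩ := hU1 g
  obtain ⟨hr1, hr2, -, -, hkr⟩ := hU2 p.2 g hE
  have hMs := (hVYA Γ δ B D hD hδ p.2 t p.1 hE).2.2.2.1
  have hMb := (hY Γ δ B D hD hδ p.2 t p.1 hE).1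
  set s := C0 * Real.exp (C0 * |t|) with hs
  have hex : 1 ≤ Real.exp (C0 * |t|) := Real.one_le_exp (by positivity)
  have hs1 : 1 ≤ s := by
    rw [hs]
    nlinarith
  have hs2 : 2 * s ^ 2 = 2 * C0 ^ 2 * Real.exp (2 * C0 * |t|) := by
    rw [hs, mul_pow, ← Real.exp_nat_mul]
    push_cast
    rw [show 2 * (C0 * |t|) = 2 * C0 * |t| by ring]
    ring
  have hex2 : 1 ≤ Real.exp (2 * C0 * |t|) := Real.one_le_exp (by positivity)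
  have hc : ∀ j, ‖VR3_c (rho D.U p.2 g) (D.M p.2 t p.1 0 0) (D.M p.2 t p.1 0 1) (D.M p.2 t p.1 1 1)
      (D.U (g • I)) (n1 D.U g) (n2 D.U g) (hess D.U g 0 0) (hess D.U g 0 1) (hess D.U g 1 1) j‖ ≤ 2 * s ^ 2 := by
    intro j
    have hre : ∀ x : ℝ, |x| ≤ δ → ‖(x : ℂ)‖ ≤ 1 / 10 := fun x hx => by
      rw [Complex.norm_real, Real.norm_eq_abs]
      exact hx.trans hδ
    refine VR3_coef _ _ _ _ _ _ _ _ _ _ s hs1 ?_ (hMb 0 0).2.2.2 (hMb 0 1).2.2.2 (hMb 1 1).2.2.2 ?_ (hre _ hn1) (hre _ hn2) (hre _ (hh 0 0)) (hre _ (hh 0 1)) (hre _ (hh 1 1)) j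
    · rw [Complex.norm_real, Real.norm_eq_abs, abs_of_nonneg (by linarith)]
      exact hr2
    · rw [Complex.norm_real, Real.norm_eq_abs]
      have h1 := abs_le.1 hu
      rw [abs_le]
      constructor <;> linarith
  obtain ⟨hPc, hPb⟩ := hA _ _ hc
  set c := VR3_c (rho D.U p.2 g) (D.M p.2 t p.1 0 0) (D.M p.2 t p.1 0 1) (D.M p.2 t p.1 1 1)
      (D.U (g • I)) (n1 D.U g) (n2 D.U g) (hess D.U g 0 0) (hess D.U g 0 1) (hess D.U g 1 1) with hcdef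
  have hr : r3 D t p = fun v : ℂ => (∑ j, c j * VR3_E (v.re : ℂ) (v.im : ℂ) j) + ((Ug D.U g v / 2 : ℝ) : ℂ) := by
    funext v
    exact VR3_id D t p v hMs hsym hkr
  have hUc : ∀ v : ℂ, ‖v‖ ≤ 1 → ContDiffAt ℝ ∞ (Ug D.U g) v := fun v hv => (hU5 g v hv).1
  have hHe : (fun v : ℂ => ((Ug D.U g v / 2 : ℝ) : ℂ)) = ((1 / 2 : ℝ) • Complex.ofRealCLM) ∘ Ug D.U g := by
    funext v
    simp [div_eq_inv_mul]
  have hHc : ∀ v : ℂ, ‖v‖ ≤ 1 → ContDiffAt ℝ ∞ (fun v : ℂ => ((Ug D.U g v / 2 : ℝ) : ℂ)) v := by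
    intro v hv
    rw [hHe]
    exact ((1 / 2 : ℝ) • Complex.ofRealCLM).contDiff.contDiffAt.comp v (hUc v hv)
  have hHb : ∀ v : ℂ, ‖v‖ ≤ 1 → ∀ k : ℕ, ‖iteratedFDeriv ℝ k (fun v : ℂ => ((Ug D.U g v / 2 : ℝ) : ℂ)) v‖ ≤ |B k| := by
    intro v hv k
    rw [hHe]
    have h1 := ((1 / 2 : ℝ) • Complex.ofRealCLM).norm_iteratedFDeriv_comp_left (x := v) ((hUc v hv).of_le (VR3_nat k)) (le_refl (k : WithTop ℕ∞))
    have h2 : ‖((1 / 2 : ℝ) • Complex.ofRealCLM)‖ ≤ 1 := by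
      rw [norm_smul, Complex.ofRealCLM_norm, Real.norm_eq_abs]
      norm_num
    refine h1.trans ?_
    calc _ ≤ 1 * ‖iteratedFDeriv ℝ k (Ug D.U g) v‖ := mul_le_mul_of_nonneg_right h2 (norm_nonneg _)
      _ ≤ |B k| := by
        rw [one_mul]
        exact (hD.pot.bd g v hv k).trans (le_abs_self _)
  have hrc : ∀ v : ℂ, ‖v‖ ≤ 1 → ContDiffAt ℝ ∞ (r3 D t p) v := by
    intro v hv
    rw [hr]
    exact hPc.contDiffAt.add (hHc v hv)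
  set b := (A * (2 * C0 ^ 2) + SB + 1) * Real.exp (2 * C0 * |t|) with hb
  have hrb : ∀ k ≤ max K 3, ∀ v : ℂ, ‖v‖ ≤ 1 → ‖iteratedFDeriv ℝ k (r3 D t p) v‖ ≤ b := by
    intro k hk v hv
    have h1 := hPb k hk v hv
    have h2 := (hHb v hv k).trans (hBk k hk)
    have h3 : iteratedFDeriv ℝ k (r3 D t p) v = iteratedFDeriv ℝ k (fun v : ℂ => ∑ j, c j * VR3_E (v.re : ℂ) (v.im : ℂ) j) v +
        iteratedFDeriv ℝ k (fun v : ℂ => ((Ug D.U g v / 2 : ℝ) : ℂ)) v := by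
      rw [hr]
      exact iteratedFDeriv_add_apply (hPc.contDiffAt.of_le (VR3_nat k)) ((hHc v hv).of_le (VR3_nat k))
    rw [h3]
    refine (norm_add_le _ _).trans ?_
    rw [hs2] at h1
    have h4 : SB ≤ SB * Real.exp (2 * C0 * |t|) := le_mul_of_one_le_right hSB0 hex2
    have h5 : (0 : ℝ) ≤ Real.exp (2 * C0 * |t|) := (Real.exp_pos _).le
    rw [hb]
    calc _ ≤ A * (2 * C0 ^ 2 * Real.exp (2 * C0 * |t|)) + SB * Real.exp (2 * C0 * |t|) := add_le_add h1 (h2.trans h4)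
      _ ≤ (A * (2 * C0 ^ 2) + SB + 1) * Real.exp (2 * C0 * |t|) := by linarith
  obtain ⟨c', hc'⟩ := VR3_O3 c D.U g (8 * B 3) rfl rfl rfl rfl rfl rfl (hU6 g)
  have hO : ∀ v : ℂ, ‖v‖ ≤ 1 → ‖r3 D t p v‖ ≤ c' * ‖v‖ ^ 3 := by
    intro v hv
    rw [hr]
    exact hc' v hv
  exact ⟨hrc v0 hv0, VR3_van (r3 D t p) b c' hrc (hrb 3 (le_max_right _ _)) hO v0 hv0, fun k hk => hrb k (hk.trans (le_max_left _ _)) v0 hv0⟩

end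

end Pool.Agent.VQ
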