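import Pool.Agent.helper74.VQ.SpecB

/-!
# MP_07c750 (quantum unique ergodicity), project VQ: the potential as a function of the entries of the frame and the disc coordinate

Common lemmas for the rows VUB, VDN, VR3.
-/

set_option autoImplicit false

open scoped MatrixGroups ContDiff Topology UpperHalfPlane ComplexConjugate ENNReal
open UpperHalfPlane MeasureTheory Filter Set

namespace Pool.Agent.VQ

open Pool.Agent.RS

noncomputable section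

/-! ## The potential as a function of the entries and the disc coordinate -/

/-- the entries of a matrix -/
def VUB_e (g : SL(2, ℝ)) : Fin 2 → Fin 2 → ℝ := fun i j => g.1 i j

/-- the Möbius transformation in the disc coordinate, as a function of the entries -/
def VUB_N (p : (Fin 2 → Fin 2 → ℝ) × ℂ) : ℂ :=
  ((p.1 0 0 : ℂ) * (Complex.I * (2 + p.2)) + (p.1 0 1 : ℂ) * (2 - p.2)) /
    ((p.1 1 0 : ℂ) * (Complex.I * (2 + p.2)) + (p.1 1 1 : ℂ) * (2 - p.2))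

/-- the potential as a function of the entries and the disc coordinate -/
def VUB_P (U : ℍ → ℝ) (p : (Fin 2 → Fin 2 → ℝ) × ℂ) : ℝ := QU.onC U (VUB_N p)

theorem VUB_two_sub {v : ℂ} (hv : ‖v‖ < 2) : (2 : ℂ) - v ≠ 0 := by
  intro h
  have h1 : v = 2 := (sub_eq_zero.1 h).symm
  rw [h1] at hv
  simp at hv

/-- the Möbius transformation -/
theorem VUB_mob (h1 : VCD_stmt) (g : SL(2, ℝ)) (v : ℂ) (hv : ‖v‖ < 2) :
    ((g.1 1 0 : ℂ) * (Complex.I * (2 + v)) + (g.1 1 1 : ℂ) * (2 - v)) ≠ 0 ∧ VUB_N (VUB_e g, v) = ((g • cdi v : ℍ) : ℂ) := by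
  have h2 := VUB_two_sub hv
  have h3 : ((cdi v : ℍ) : ℂ) = Complex.I * (2 + v) / (2 - v) := (h1.2.1 v hv).2
  have hden : (g.1 1 0 : ℂ) * ((cdi v : ℍ) : ℂ) + (g.1 1 1 : ℂ) ≠ 0 := by
    have h4 := denom_ne_zero (g : GL (Fin 2) ℝ) (cdi v)
    exact h4
  have hD : ((g.1 1 0 : ℂ) * (Complex.I * (2 + v)) + (g.1 1 1 : ℂ) * (2 - v)) ≠ 0 := by
    have h5 : (g.1 1 0 : ℂ) * (Complex.I * (2 + v)) + (g.1 1 1 : ℂ) * (2 - v) =
        ((g.1 1 0 : ℂ) * ((cdi v : ℍ) : ℂ) + (g.1 1 1 : ℂ)) * (2 - v) := by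
      rw [h3]
      field_simp
    rw [h5]
    exact mul_ne_zero hden h2
  refine ⟨hD, ?_⟩
  rw [coe_specialLinearGroup_apply]
  show ((g.1 0 0 : ℂ) * (Complex.I * (2 + v)) + (g.1 0 1 : ℂ) * (2 - v)) /
    ((g.1 1 0 : ℂ) * (Complex.I * (2 + v)) + (g.1 1 1 : ℂ) * (2 - v)) = _
  have h6 : (g.1 0 0 : ℂ) * ((cdi v : ℍ) : ℂ) + (g.1 0 1 : ℂ) = ((g.1 0 0 : ℂ) * (Complex.I * (2 + v)) + (g.1 0 1 : ℂ) * (2 - v)) / (2 - v) := by
    rw [h3]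
    field_simp
  have h7 : (g.1 1 0 : ℂ) * ((cdi v : ℍ) : ℂ) + (g.1 1 1 : ℂ) = ((g.1 1 0 : ℂ) * (Complex.I * (2 + v)) + (g.1 1 1 : ℂ) * (2 - v)) / (2 - v) := by
    rw [h3]
    field_simp
  have h8 : ((g.1 0 0 : ℂ) * (Complex.I * (2 + v)) + (g.1 0 1 : ℂ) * (2 - v)) / (2 - v) /
      (((g.1 1 0 : ℂ) * (Complex.I * (2 + v)) + (g.1 1 1 : ℂ) * (2 - v)) / (2 - v)) =
      ((g.1 0 0 : ℂ) * (Complex.I * (2 + v)) + (g.1 0 1 : ℂ) * (2 - v)) /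
      ((g.1 1 0 : ℂ) * (Complex.I * (2 + v)) + (g.1 1 1 : ℂ) * (2 - v)) := div_div_div_cancel_right₀ h2 _ _
  rw [← h8, ← h6, ← h7]
  rfl

theorem VUB_N_cd (p : (Fin 2 → Fin 2 → ℝ) × ℂ) (hp : ((p.1 1 0 : ℂ) * (Complex.I * (2 + p.2)) + (p.1 1 1 : ℂ) * (2 - p.2)) ≠ 0) :
    ContDiffAt ℝ ∞ VUB_N p := by
  have he : ∀ i j : Fin 2, ContDiffAt ℝ ∞ (fun q : (Fin 2 → Fin 2 → ℝ) × ℂ => ((q.1 i j : ℝ) : ℂ)) p := by
    intro i j
    have h1 : ContDiff ℝ ∞ (fun q : (Fin 2 → Fin 2 → ℝ) × ℂ => q.1 i j) := by fun_prop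
    exact (Complex.ofRealCLM.contDiff.comp h1).contDiffAt
  have h2 : ContDiffAt ℝ ∞ (fun q : (Fin 2 → Fin 2 → ℝ) × ℂ => Complex.I * (2 + q.2)) p := by fun_prop
  have h3 : ContDiffAt ℝ ∞ (fun q : (Fin 2 → Fin 2 → ℝ) × ℂ => (2 : ℂ) - q.2) p := by fun_prop
  have h4 := (((he 0 0).mul h2).add ((he 0 1).mul h3)).mul ((((he 1 0).mul h2).add ((he 1 1).mul h3)).inv hp)
  exact h4.congr_of_eventuallyEq (Eventually.of_forall fun q => div_eq_mul_inv _ _)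

theorem VUB_P_cd (h1 : VCD_stmt) (U : ℍ → ℝ) (hU : QU.CD ∞ U) (g : SL(2, ℝ)) (v : ℂ) (hv : ‖v‖ < 2) :
    ContDiffAt ℝ ∞ (VUB_P U) (VUB_e g, v) := by
  obtain ⟨hD, hN⟩ := VUB_mob h1 g v hv
  have h2 : ContDiffAt ℝ ∞ VUB_N (VUB_e g, v) := VUB_N_cd _ hD
  have h3 : ContDiffAt ℝ ∞ (QU.onC U) (VUB_N (VUB_e g, v)) := by
    rw [hN]
    refine hU.contDiffAt ((isOpen_lt continuous_const Complex.continuous_im).mem_nhds ?_)
    exact (g • cdi v : ℍ).im_pos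
  exact h3.comp (VUB_e g, v) h2

theorem VUB_Ug (h1 : VCD_stmt) (U : ℍ → ℝ) (g : SL(2, ℝ)) (v : ℂ) (hv : ‖v‖ < 2) : Ug U g v = VUB_P U (VUB_e g, v) := by
  show U (g • cdi v) = U (ofComplex (VUB_N (VUB_e g, v)))
  rw [(VUB_mob h1 g v hv).2, ofComplex_apply]

theorem VUB_Ug_ev (h1 : VCD_stmt) (U : ℍ → ℝ) (g : SL(2, ℝ)) (v : ℂ) (hv : ‖v‖ < 2) :
    Ug U g =ᶠ[𝓝 v] fun w => VUB_P U (VUB_e g, w) := by
  have h2 : {w : ℂ | ‖w‖ < 2} ∈ 𝓝 v := (isOpen_lt continuous_norm continuous_const).mem_nhds hv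
  filter_upwards [h2] with w hw
  exact VUB_Ug h1 U g w hw

theorem VUB_Ug_cd (h1 : VCD_stmt) (U : ℍ → ℝ) (hU : QU.CD ∞ U) (g : SL(2, ℝ)) (v : ℂ) (hv : ‖v‖ < 2) :
    ContDiffAt ℝ ∞ (Ug U g) v := by
  have h2 : ContDiffAt ℝ ∞ (fun w : ℂ => VUB_P U (VUB_e g, w)) v :=
    (VUB_P_cd h1 U hU g v hv).comp v (contDiffAt_const.prodMk contDiffAt_id)
  exact h2.congr_of_eventuallyEq (VUB_Ug_ev h1 U g v hv)

/-- the first derivative in the disc coordinate -/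
theorem VUB_d1 (h1 : VCD_stmt) (U : ℍ → ℝ) (hU : QU.CD ∞ U) (g : SL(2, ℝ)) (v : ℂ) (hv : ‖v‖ < 2) (u : ℂ) :
    fderiv ℝ (Ug U g) v u = fderiv ℝ (VUB_P U) (VUB_e g, v) (0, u) := by
  have h2 : HasFDerivAt (VUB_P U) (fderiv ℝ (VUB_P U) (VUB_e g, v)) (VUB_e g, v) :=
    ((VUB_P_cd h1 U hU g v hv).differentiableAt (by simp)).hasFDerivAt
  have h3 : HasFDerivAt (fun w : ℂ => (VUB_e g, w)) (ContinuousLinearMap.inr ℝ (Fin 2 → Fin 2 → ℝ) ℂ) v := by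
    exact hasFDerivAt_prodMk_right (VUB_e g) v
  have h4 := h2.comp v h3
  rw [(VUB_Ug_ev h1 U g v hv).fderiv_eq]
  have h5 : fderiv ℝ (fun w => VUB_P U (VUB_e g, w)) v = _ := h4.fderiv
  rw [h5]
  rfl

theorem VUB_fP (h1 : VCD_stmt) (U : ℍ → ℝ) (hU : QU.CD ∞ U) (g : SL(2, ℝ)) (v : ℂ) (hv : ‖v‖ < 2) :
    ContDiffAt ℝ ∞ (fderiv ℝ (VUB_P U)) (VUB_e g, v) :=
  (VUB_P_cd h1 U hU g v hv).fderiv_right (m := ∞) (by simp)

/-- the second derivative in the disc coordinate -/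
theorem VUB_d2 (h1 : VCD_stmt) (U : ℍ → ℝ) (hU : QU.CD ∞ U) (g : SL(2, ℝ)) (v : ℂ) (hv : ‖v‖ < 2) (u w : ℂ) :
    fderiv ℝ (fderiv ℝ (Ug U g)) v u w = fderiv ℝ (fderiv ℝ (VUB_P U)) (VUB_e g, v) (0, u) (0, w) := by
  have h2 : HasFDerivAt (fderiv ℝ (VUB_P U)) (fderiv ℝ (fderiv ℝ (VUB_P U)) (VUB_e g, v)) (VUB_e g, v) :=
    ((VUB_fP h1 U hU g v hv).differentiableAt (by simp)).hasFDerivAt
  have h3 : HasFDerivAt (fun w : ℂ => (VUB_e g, w)) (ContinuousLinearMap.inr ℝ (Fin 2 → Fin 2 → ℝ) ℂ) v := by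
    exact hasFDerivAt_prodMk_right (VUB_e g) v
  have h4 := (h2.comp v h3).clm_apply (hasFDerivAt_const ((0, w) : (Fin 2 → Fin 2 → ℝ) × ℂ) v)
  have h5 : HasFDerivAt (fderiv ℝ (Ug U g)) (fderiv ℝ (fderiv ℝ (Ug U g)) v) v := by
    have h6 : ContDiffAt ℝ ∞ (fderiv ℝ (Ug U g)) v := (VUB_Ug_cd h1 U hU g v hv).fderiv_right (m := ∞) (by simp)
    exact (h6.differentiableAt (by simp)).hasFDerivAt
  have h7 := h5.clm_apply (hasFDerivAt_const w v)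
  have h8 : (fun x => fderiv ℝ (Ug U g) x w) =ᶠ[𝓝 v] fun x => fderiv ℝ (VUB_P U) (VUB_e g, x) (0, w) := by
    have h9 : {w : ℂ | ‖w‖ < 2} ∈ 𝓝 v := (isOpen_lt continuous_norm continuous_const).mem_nhds hv
    filter_upwards [h9] with x hx
    exact VUB_d1 h1 U hU g x hx w
  have h10 := h7.unique (h4.congr_of_eventuallyEq h8)
  have h11 := congrArg (fun L : ℂ →L[ℝ] ℝ => L u) h10
  simpa using h11

end

end Pool.Agent.VQ
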